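import Pool.Agent.Lib.MP_140312_al_CountableFlats.Crystal

/-!
# Averaging a bounded-error cocycle into a cocycle
-/

namespace Pool.Agent.MP140312CF

open Filter Topology

variable {E : Type*} [NormedAddCommGroup E] [InnerProductSpace ℝ E] [FiniteDimensional ℝ E]
variable {S : Type*} [Group S] (L : S → E ≃ₗᵢ[ℝ] E) (b : S → E) (C : ℝ)

/-- An action up to bounded error. -/
structure QuasiData : Prop where
  hL : ∀ γ δ x, L (γ * δ) x = L γ (L δ x)
  hb : ∀ γ δ, ‖b (γ * δ) - (b γ + L γ (b δ))‖ ≤ C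
  hfin : ∀ R : ℝ, {γ | ‖b γ‖ ≤ R}.Finite
  hcob : ∃ R : ℝ, ∀ z, ∃ γ, ‖b γ - z‖ ≤ R

variable {L b C}

theorem QuasiData.C_nonneg (h : QuasiData L b C) : 0 ≤ C := le_trans (norm_nonneg _) (h.hb 1 1)

theorem QuasiData.b_one (h : QuasiData L b C) : ‖b 1‖ ≤ C := by
  have h1 := h.hb 1 1
  have h2 : L 1 (b 1) = b 1 := by
    have h1 := h.hL 1 1 (b 1)
    rw [mul_one] at h1
    exact ((L 1).injective h1).symm
  rw [mul_one, h2] at h1
  have h3 : b 1 - (b 1 + b 1) = - b 1 := by abel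
  rwa [h3, norm_neg] at h1

theorem QuasiData.b_inv_mul (h : QuasiData L b C) (γ δ : S) :
    ‖b (γ⁻¹ * δ)‖ ≤ 3 * C + ‖b δ - b γ‖ := by
  have h1 := h.hb γ⁻¹ δ
  have h2 := h.hb γ⁻¹ γ
  rw [inv_mul_cancel] at h2
  have h3 := h.b_one
  have h4 : b (γ⁻¹ * δ) = (b (γ⁻¹ * δ) - (b γ⁻¹ + L γ⁻¹ (b δ))) + (L γ⁻¹ (b δ - b γ) +
      (b 1 - (b 1 - (b γ⁻¹ + L γ⁻¹ (b γ))))) := by
    rw [map_sub]
    abel
  rw [h4]
  refine (norm_add_le _ _).trans ?_
  refine (add_le_add h1 (norm_add_le _ _)).trans ?_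
  rw [LinearIsometryEquiv.norm_map]
  have h5 : ‖b 1 - (b 1 - (b γ⁻¹ + L γ⁻¹ (b γ)))‖ ≤ C + C := (norm_sub_le _ _).trans
    (add_le_add h3 h2)
  linarith

/-- balls -/
noncomputable def QuasiData.ball (h : QuasiData L b C) (n : ℕ) : Finset S := (h.hfin n).toFinset

theorem QuasiData.mem_ball (h : QuasiData L b C) (n : ℕ) (γ : S) : γ ∈ h.ball n ↔ ‖b γ‖ ≤ n := by
  rw [QuasiData.ball, Set.Finite.mem_toFinset]
  rfl

theorem QuasiData.growth (h : QuasiData L b C) :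
    ∃ M : ℕ, ∀ n : ℕ, (h.ball n).card ≤ M * (2 * n + 2) ^ (Module.finrank ℝ E) := by
  classical
  set k := Module.finrank ℝ E with hk
  let e := stdOrthonormalBasis ℝ E
  let c : S → (Fin k → ℤ) := fun γ i => ⌊inner ℝ (e i) (b γ)⌋
  obtain ⟨R₀, hR₀⟩ := exists_nat_ge (3 * C + (k + 1))
  refine ⟨(h.ball R₀).card, fun n => ?_⟩
  have hmaps : ∀ γ ∈ h.ball n, c γ ∈ Fintype.piFinset
      (fun _ : Fin k => Finset.Icc (-(n : ℤ) - 1) n) := by
    intro γ hγ
    rw [h.mem_ball] at hγ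
    rw [Fintype.mem_piFinset]
    intro i
    rw [Finset.mem_Icc]
    have h1 : |inner ℝ (e i) (b γ)| ≤ n := by
      refine (abs_real_inner_le_norm _ _).trans ?_
      rw [e.orthonormal.1 i, one_mul]
      exact hγ
    rw [abs_le] at h1
    constructor
    · apply Int.le_floor.mpr
      push_cast
      linarith [h1.1]
    · have h2 : ((⌊inner ℝ (e i) (b γ)⌋ : ℤ) : ℝ) ≤ n := (Int.floor_le _).trans h1.2
      exact_mod_cast h2
  have hcard := Finset.card_le_mul_card_image_of_maps_to hmaps (h.ball R₀).card ?_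
  · rw [Fintype.card_piFinset] at hcard
    simp only [Int.card_Icc, Finset.prod_const, Finset.card_univ, Fintype.card_fin] at hcard
    have h1 : ((n : ℤ) + 1 - (-(n : ℤ) - 1)).toNat = 2 * n + 2 := by omega
    rw [h1] at hcard
    exact hcard
  · intro v _
    by_cases hne : ∃ γ₀ ∈ h.ball n, c γ₀ = v
    · obtain ⟨γ₀, hγ₀, hcγ₀⟩ := hne
      refine Finset.card_le_card_of_injOn (fun δ => γ₀⁻¹ * δ) ?_
        (fun x _ y _ hxy => mul_left_cancel hxy)
      intro δ hδ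
      have hδ' := (Finset.mem_filter.mp (Finset.mem_coe.mp hδ)).2
      change γ₀⁻¹ * δ ∈ (h.ball R₀ : Set S)
      rw [Finset.mem_coe, h.mem_ball]
      refine (h.b_inv_mul γ₀ δ).trans (le_trans ?_ hR₀)
      have h1 : ‖b δ - b γ₀‖ ^ 2 ≤ k := by
        rw [← e.sum_sq_norm_inner_right (b δ - b γ₀)]
        have h2 : ∀ i ∈ Finset.univ, ‖inner ℝ (e i) (b δ - b γ₀)‖ ^ 2 ≤ (1 : ℝ) := by
          intro i _
          rw [inner_sub_right, Real.norm_eq_abs, sq_abs]
          have h3 : ⌊inner ℝ (e i) (b δ)⌋ = ⌊inner ℝ (e i) (b γ₀)⌋ := by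
            have := congrFun (hδ'.trans hcγ₀.symm) i
            exact this
          have h4 := Int.abs_sub_lt_one_of_floor_eq_floor h3
          rw [abs_lt] at h4
          nlinarith [h4.1, h4.2]
        have h5 := Finset.sum_le_sum h2
        simpa using h5
      have h6 : ‖b δ - b γ₀‖ ≤ k + 1 := by
        have h7 : (0 : ℝ) ≤ k := Nat.cast_nonneg k
        have h8 := norm_nonneg (b δ - b γ₀)
        nlinarith
      linarith
    · rw [Finset.filter_eq_empty_iff.mpr]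
      · simp
      · intro γ hγ hcγ
        exact hne ⟨γ, hγ, hcγ⟩

theorem QuasiData.folner (h : QuasiData L b C) (j : ℕ) :
    ∃ n : ℕ, 0 < (h.ball n).card ∧
      ((h.ball (n + j)).card : ℝ) ≤ (1 + 1 / ((j : ℝ) + 1)) * (h.ball n).card := by
  classical
  by_contra hcon
  push Not at hcon
  obtain ⟨n₀, hn₀⟩ := exists_nat_ge ‖b 1‖
  have h0 : ∀ n, n₀ ≤ n → 0 < (h.ball n).card := by
    intro n hn
    refine Finset.card_pos.mpr ⟨1, ?_⟩
    rw [h.mem_ball]
    exact hn₀.trans (by exact_mod_cast hn)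
  set r : ℝ := 1 + 1 / ((j : ℝ) + 1) with hr
  have hr1 : 1 < r := by
    rw [hr]
    have : (0 : ℝ) < 1 / ((j : ℝ) + 1) := by positivity
    linarith
  have hexp : ∀ m : ℕ, r ^ m ≤ (h.ball (n₀ + j * m)).card := by
    intro m
    induction m with
    | zero =>
      have := h0 n₀ le_rfl
      simp only [pow_zero, mul_zero, add_zero]
      exact_mod_cast this
    | succ m ih =>
      have h1 := hcon (n₀ + j * m) (h0 _ (Nat.le_add_right _ _))
      have h2 : n₀ + j * (m + 1) = n₀ + j * m + j := by ring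
      rw [h2, pow_succ, mul_comm]
      exact (mul_le_mul_of_nonneg_left ih (by linarith)).trans h1.le
  obtain ⟨M, hM⟩ := h.growth
  set k := Module.finrank ℝ E
  have hpoly : ∀ m : ℕ, 1 ≤ m → r ^ m ≤ M * ((2 * n₀ + 2 * j + 2) ^ k : ℕ) * (m : ℝ) ^ k := by
    intro m hm
    refine (hexp m).trans ?_
    have h1 := hM (n₀ + j * m)
    have h2 : (2 * (n₀ + j * m) + 2) ≤ (2 * n₀ + 2 * j + 2) * m := by nlinarith
    have h3 : (h.ball (n₀ + j * m)).card ≤ M * ((2 * n₀ + 2 * j + 2) ^ k * m ^ k) := by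
      refine h1.trans (Nat.mul_le_mul_left _ ?_)
      rw [← mul_pow]
      exact Nat.pow_le_pow_left h2 k
    have h4 : ((h.ball (n₀ + j * m)).card : ℝ) ≤ (M * ((2 * n₀ + 2 * j + 2) ^ k * m ^ k) : ℕ) := by
      exact_mod_cast h3
    refine h4.trans (le_of_eq ?_)
    push_cast
    ring
  have hlim := tendsto_pow_const_div_const_pow_of_one_lt k hr1
  set D : ℝ := M * ((2 * n₀ + 2 * j + 2) ^ k : ℕ) with hD
  have hD0 : 0 ≤ D := by positivity
  have hev : ∀ᶠ m : ℕ in atTop, (m : ℝ) ^ k / r ^ m < 1 / (D + 1) :=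
    hlim.eventually (gt_mem_nhds (by positivity))
  obtain ⟨m, hm1, hm2⟩ := (hev.and (eventually_ge_atTop 1)).exists
  have h1 := hpoly m hm2
  have hrm : 0 < r ^ m := by positivity
  rw [div_lt_div_iff₀ hrm (by positivity)] at hm1
  have hmk : (0 : ℝ) < (m : ℝ) ^ k := by
    have : (1 : ℝ) ≤ m := by exact_mod_cast hm2
    positivity
  nlinarith

theorem QuasiData.exists_crystal (h : QuasiData L b C) : ∃ b' : S → E, CrystalData L b' := by
  classical
  have hE : ProperSpace E := FiniteDimensional.proper ℝ E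
  choose n hn0 hn using h.folner
  let B : ℕ → Finset S := fun j => h.ball (n j)
  let g : ℕ → ℝ := fun j => (B j).card
  have hg0 : ∀ j, 0 < g j := fun j => by
    have := hn0 j
    simp only [g, B]
    exact_mod_cast this
  let A : ℕ → (S → E) → E := fun j f => (g j)⁻¹ • ∑ δ ∈ B j, f δ
  have hAadd : ∀ j f f', A j (fun δ => f δ + f' δ) = A j f + A j f' := by
    intro j f f'
    simp only [A, Finset.sum_add_distrib, smul_add]
  have hAmap : ∀ j f γ, A j (fun δ => L γ (f δ)) = L γ (A j f) := by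
    intro j f γ
    simp only [A, map_smul, map_sum]
  have hAconst : ∀ j (v : E), A j (fun _ => v) = v := by
    intro j v
    simp only [A, Finset.sum_const, ← Nat.cast_smul_eq_nsmul ℝ]
    rw [smul_smul, inv_mul_cancel₀ (hg0 j).ne', one_smul]
  have hAsub : ∀ j f f', A j (fun δ => f δ - f' δ) = A j f - A j f' := by
    intro j f f'
    simp only [A, Finset.sum_sub_distrib, smul_sub]
  have hAbd : ∀ j f K, (∀ δ, ‖f δ‖ ≤ K) → ‖A j f‖ ≤ K := by
    intro j f K hK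
    simp only [A]
    rw [norm_smul, norm_inv, Real.norm_of_nonneg (hg0 j).le, inv_mul_le_iff₀ (hg0 j)]
    refine (norm_sum_le_of_le _ fun δ _ => hK δ).trans ?_
    rw [Finset.sum_const, nsmul_eq_mul]
  -- almost invariance
  have hinv : ∀ (f : S → E) (K : ℝ) (γ : S), (∀ δ, ‖f δ‖ ≤ K) → ∃ j₀ : ℕ, ∀ j, j₀ ≤ j →
      ‖A j (fun δ => f (γ * δ)) - A j f‖ ≤ 2 * K * (1 / ((j : ℝ) + 1)) := by
    intro f K γ hK
    have hK0 : 0 ≤ K := (norm_nonneg _).trans (hK 1)
    obtain ⟨c, hc⟩ := exists_nat_ge (‖b γ‖ + C)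
    refine ⟨c, fun j hj => ?_⟩
    set B' := h.ball (n j + j) with hB'
    have hsub1 : B j ⊆ B' := by
      intro δ hδ
      rw [hB', h.mem_ball]
      rw [h.mem_ball] at hδ
      push_cast
      have : (0 : ℝ) ≤ j := Nat.cast_nonneg j
      linarith
    have hsub2 : (B j).image (fun δ => γ * δ) ⊆ B' := by
      intro δ hδ
      rw [Finset.mem_image] at hδ
      obtain ⟨δ', hδ', rfl⟩ := hδ
      rw [h.mem_ball] at hδ'
      rw [hB', h.mem_ball]
      have h1 := h.hb γ δ'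
      have h2 : ‖b (γ * δ')‖ ≤ C + (‖b γ‖ + ‖b δ'‖) := by
        calc ‖b (γ * δ')‖ = ‖(b (γ * δ') - (b γ + L γ (b δ'))) + (b γ + L γ (b δ'))‖ := by
              congr 1; abel
          _ ≤ ‖b (γ * δ') - (b γ + L γ (b δ'))‖ + ‖b γ + L γ (b δ')‖ := norm_add_le _ _
          _ ≤ C + (‖b γ‖ + ‖L γ (b δ')‖) := add_le_add h1 (norm_add_le _ _)
          _ = C + (‖b γ‖ + ‖b δ'‖) := by rw [LinearIsometryEquiv.norm_map]
      push_cast
      have h3 : (c : ℝ) ≤ j := by exact_mod_cast hj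
      linarith
    have hcardim : ((B j).image (fun δ => γ * δ)).card = (B j).card :=
      Finset.card_image_of_injective _ (mul_right_injective γ)
    have hsum : ∑ δ ∈ B j, f (γ * δ) = ∑ δ ∈ (B j).image (fun δ => γ * δ), f δ :=
      (Finset.sum_image fun x _ y _ hxy => mul_right_injective γ hxy).symm
    have e1 := Finset.sum_sdiff (f := f) hsub1
    have e2 := Finset.sum_sdiff (f := f) hsub2
    have c1 : ((B' \ B j).card : ℝ) = B'.card - g j := by
      rw [Finset.card_sdiff_of_subset hsub1, Nat.cast_sub (Finset.card_le_card hsub1)]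
    have c2 : ((B' \ (B j).image (fun δ => γ * δ)).card : ℝ) = B'.card - g j := by
      rw [Finset.card_sdiff_of_subset hsub2, Nat.cast_sub (Finset.card_le_card hsub2), hcardim]
    have b1 : ‖∑ δ ∈ B' \ B j, f δ‖ ≤ (B'.card - g j) * K := by
      refine (norm_sum_le_of_le _ fun δ _ => hK δ).trans ?_
      rw [Finset.sum_const, nsmul_eq_mul, c1]
    have b2 : ‖∑ δ ∈ B' \ (B j).image (fun δ => γ * δ), f δ‖ ≤ (B'.card - g j) * K := by
      refine (norm_sum_le_of_le _ fun δ _ => hK δ).trans ?_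
      rw [Finset.sum_const, nsmul_eq_mul, c2]
    have e3 : A j (fun δ => f (γ * δ)) - A j f = (g j)⁻¹ •
        ((∑ δ ∈ B' \ B j, f δ) - (∑ δ ∈ B' \ (B j).image (fun δ => γ * δ), f δ)) := by
      simp only [A]
      rw [← smul_sub, hsum]
      congr 1
      have e4 : ∑ δ ∈ B' \ B j, f δ = ∑ δ ∈ B', f δ - ∑ δ ∈ B j, f δ :=
        eq_sub_of_add_eq e1
      have e5 : ∑ δ ∈ B' \ (B j).image (fun δ => γ * δ), f δ = ∑ δ ∈ B', f δ -
          ∑ δ ∈ (B j).image (fun δ => γ * δ), f δ := eq_sub_of_add_eq e2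
      rw [e4, e5]
      abel
    rw [e3, norm_smul, norm_inv, Real.norm_of_nonneg (hg0 j).le, inv_mul_le_iff₀ (hg0 j)]
    have h5 := hn j
    have h6 : (B'.card : ℝ) - g j ≤ 1 / ((j : ℝ) + 1) * g j := by
      have h7 : (B'.card : ℝ) ≤ (1 + 1 / ((j : ℝ) + 1)) * g j := h5
      linarith
    calc _ ≤ ‖∑ δ ∈ B' \ B j, f δ‖ + ‖∑ δ ∈ B' \ (B j).image (fun δ => γ * δ), f δ‖ :=
          norm_sub_le _ _
      _ ≤ 2 * ((B'.card - g j) * K) := by linarith
      _ ≤ 2 * ((1 / ((j : ℝ) + 1) * g j) * K) := by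
          have := mul_le_mul_of_nonneg_right h6 hK0
          linarith
      _ = g j * (2 * K * (1 / ((j : ℝ) + 1))) := by ring
  let U : Ultrafilter ℕ := hyperfilter ℕ
  have hU : (U : Filter ℕ) ≤ atTop := by
    rw [← Nat.cofinite_eq_atTop]
    exact hyperfilter_le_cofinite
  let H : S → S → E := fun γ δ => b (γ * δ) - L γ (b δ)
  have hH : ∀ γ δ, ‖H γ δ - b γ‖ ≤ C := by
    intro γ δ
    have h1 := h.hb γ δ
    have h2 : H γ δ - b γ = b (γ * δ) - (b γ + L γ (b δ)) := by simp only [H]; abel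
    rw [h2]
    exact h1
  have hH' : ∀ γ δ, ‖H γ δ‖ ≤ ‖b γ‖ + C := by
    intro γ δ
    calc ‖H γ δ‖ = ‖b γ + (H γ δ - b γ)‖ := by congr 1; abel
      _ ≤ _ := (norm_add_le _ _).trans (add_le_add le_rfl (hH γ δ))
  have hlim : ∀ γ, ∃ l, Tendsto (fun j => A j (H γ)) U (𝓝 l) := by
    intro γ
    have hK : IsCompact (Metric.closedBall (0 : E) (‖b γ‖ + C)) := isCompact_closedBall _ _
    have hm : ∀ᶠ j in (U : Filter ℕ), A j (H γ) ∈ Metric.closedBall (0 : E) (‖b γ‖ + C) := by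
      refine Filter.Eventually.of_forall fun j => ?_
      rw [mem_closedBall_zero_iff]
      exact hAbd j _ _ (hH' γ)
    obtain ⟨l, _, hl⟩ := isCompact_iff_ultrafilter_le_nhds.mp hK
      (U.map (fun j => A j (H γ)))
      (by
        rw [le_principal_iff]
        exact hm)
    exact ⟨l, hl⟩
  choose b' hb' using hlim
  have hclose : ∀ γ, ‖b' γ - b γ‖ ≤ C := by
    intro γ
    have h1 : Tendsto (fun j => ‖A j (H γ) - b γ‖) U (𝓝 ‖b' γ - b γ‖) :=
      ((hb' γ).sub_const _).norm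
    refine le_of_tendsto h1 (Filter.Eventually.of_forall fun j => ?_)
    have h2 : A j (H γ) - b γ = A j (fun δ => H γ δ - b γ) := by
      rw [hAsub j (H γ) (fun _ => b γ), hAconst]
    rw [h2]
    exact hAbd j _ _ (hH γ)
  refine ⟨b', h.hL, ?_, ?_, ?_⟩
  · intro γ₁ γ₂
    have h1 : Tendsto (fun j => A j (fun δ => H γ₁ (γ₂ * δ)) + L γ₁ (A j (H γ₂))) U
        (𝓝 (b' γ₁ + L γ₁ (b' γ₂))) := by
      refine Tendsto.add ?_ (((L γ₁).continuous.tendsto _).comp (hb' γ₂))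
      have h2 : Tendsto (fun j => (A j (fun δ => H γ₁ (γ₂ * δ)) - A j (H γ₁)) + A j (H γ₁)) U
          (𝓝 (0 + b' γ₁)) := by
        refine Tendsto.add ?_ (hb' γ₁)
        obtain ⟨j₀, hj₀⟩ := hinv (H γ₁) (‖b γ₁‖ + C) γ₂ (hH' γ₁)
        have h3 : Tendsto (fun j : ℕ => 2 * (‖b γ₁‖ + C) * (1 / ((j : ℝ) + 1))) U (𝓝 0) := by
          have := (tendsto_one_div_add_atTop_nhds_zero_nat (𝕜 := ℝ)).mono_left hU
          simpa using this.const_mul (2 * (‖b γ₁‖ + C))
        refine squeeze_zero_norm' ?_ h3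
        exact hU ((eventually_ge_atTop j₀).mono fun j hj => hj₀ j hj)
      rw [zero_add] at h2
      refine h2.congr fun j => ?_
      abel
    have h2 : (fun j => A j (fun δ => H γ₁ (γ₂ * δ)) + L γ₁ (A j (H γ₂))) =
        fun j => A j (H (γ₁ * γ₂)) := by
      funext j
      rw [← hAmap, ← hAadd]
      congr 1
      funext δ
      simp only [H]
      rw [h.hL, map_sub, mul_assoc]
      abel
    rw [h2] at h1
    exact tendsto_nhds_unique (hb' _) h1
  · intro R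
    refine (h.hfin (R + C)).subset fun γ hγ => ?_
    have h1 : ‖b' γ‖ ≤ R := hγ
    have h2 := hclose γ
    change ‖b γ‖ ≤ R + C
    calc ‖b γ‖ = ‖b' γ - (b' γ - b γ)‖ := by congr 1; abel
      _ ≤ ‖b' γ‖ + ‖b' γ - b γ‖ := norm_sub_le _ _
      _ ≤ R + C := add_le_add h1 h2
  · obtain ⟨R, hR⟩ := h.hcob
    refine ⟨C + R, fun z => ?_⟩
    obtain ⟨γ, hγ⟩ := hR z
    refine ⟨γ, ?_⟩
    calc ‖b' γ - z‖ = ‖(b' γ - b γ) + (b γ - z)‖ := by congr 1; abel
      _ ≤ ‖b' γ - b γ‖ + ‖b γ - z‖ := norm_add_le _ _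
      _ ≤ C + R := add_le_add (hclose γ) hγ

end Pool.Agent.MP140312CF
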