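import Mathlib

/-!
# Proper cobounded isometric actions on Euclidean space: `ℤ ^ k` (Bieberbach, following Buser)
-/

namespace Pool.Agent.MP140312CF

open Filter Topology

section decomposition

variable {E : Type*} [NormedAddCommGroup E] [InnerProductSpace ℝ E] [FiniteDimensional ℝ E]

theorem exists_orth_decomp (V : Submodule ℝ E) (e : E) :
    ∃ p ∈ V, ∃ q ∈ Vᗮ, e = p + q ∧ ‖p‖ ≤ ‖e‖ ∧ ‖q‖ ≤ ‖e‖ := by
  obtain ⟨p, hp, q, hq, h⟩ := Submodule.exists_add_mem_mem_orthogonal (K := V) e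
  have h1 : inner ℝ p q = 0 := Submodule.inner_right_of_mem_orthogonal hp hq
  have h2 : ‖e‖ ^ 2 = ‖p‖ ^ 2 + ‖q‖ ^ 2 := by
    rw [h, norm_add_sq_real, h1]
    ring
  refine ⟨p, hp, q, hq, h, ?_, ?_⟩
  · exact abs_le_of_sq_le_sq' (by nlinarith [sq_nonneg ‖q‖]) (norm_nonneg _) |>.2
  · exact abs_le_of_sq_le_sq' (by nlinarith [sq_nonneg ‖p‖]) (norm_nonneg _) |>.2

theorem exists_top_space (A : E ≃ₗᵢ[ℝ] E) (hA : ∃ x, A x ≠ x) :
    ∃ (m m' : ℝ) (V : Submodule ℝ E), 0 ≤ m' ∧ m' < m ∧ V ≠ ⊥ ∧ (∀ x ∈ V, A x ∈ V) ∧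
      (∀ x ∈ Vᗮ, A x ∈ Vᗮ) ∧ (∀ x ∈ V, ‖A x - x‖ = m * ‖x‖) ∧
      (∀ x ∈ Vᗮ, ‖A x - x‖ ≤ m' * ‖x‖) ∧ (∀ x, ‖A x - x‖ ≤ m * ‖x‖) := by
  have hE : ProperSpace E := FiniteDimensional.proper ℝ E
  obtain ⟨x₁, hx₁⟩ := hA
  have hx₁0 : x₁ ≠ 0 := by
    rintro rfl
    exact hx₁ (map_zero _)
  -- scaling
  have hscale : ∀ (W : Submodule ℝ E) (c : ℝ),
      (∀ x ∈ W, ‖x‖ = 1 → ‖A x - x‖ ≤ c) → ∀ x ∈ W, ‖A x - x‖ ≤ c * ‖x‖ := by
    intro W c hc x hxW
    by_cases hx : x = 0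
    · simp [hx]
    · have hxn : 0 < ‖x‖ := norm_pos_iff.mpr hx
      have h1 := hc ((‖x‖)⁻¹ • x) (W.smul_mem _ hxW) (by
        rw [norm_smul, norm_inv, norm_norm, inv_mul_cancel₀ hxn.ne'])
      rw [map_smul, ← smul_sub, norm_smul, norm_inv, norm_norm,
        inv_mul_le_iff₀ hxn] at h1
      linarith
  have hcont : Continuous fun x => ‖A x - x‖ := (A.continuous.sub continuous_id).norm
  obtain ⟨x₀, hx₀, hmax⟩ := (isCompact_sphere (0 : E) 1).exists_isMaxOn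
    ⟨(‖x₁‖)⁻¹ • x₁, by
      rw [mem_sphere_zero_iff_norm, norm_smul, norm_inv, norm_norm,
        inv_mul_cancel₀ (norm_ne_zero_iff.mpr hx₁0)]⟩ hcont.continuousOn
  rw [mem_sphere_zero_iff_norm] at hx₀
  set m := ‖A x₀ - x₀‖ with hm
  have hle : ∀ x, ‖A x - x‖ ≤ m * ‖x‖ := fun x =>
    hscale ⊤ m (fun y _ hy => hmax (by rwa [mem_sphere_zero_iff_norm])) x trivial
  have hmpos : 0 < m := by
    have h1 := hle x₁
    have h2 : 0 < ‖A x₁ - x₁‖ := norm_pos_iff.mpr (sub_ne_zero.mpr hx₁)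
    have h3 : 0 < ‖x₁‖ := norm_pos_iff.mpr hx₁0
    by_contra hcon
    push Not at hcon
    nlinarith
  -- the operator
  let P : E →ₗ[ℝ] E := m ^ 2 • LinearMap.id - (2 • LinearMap.id - A.toLinearEquiv.toLinearMap -
    A.symm.toLinearEquiv.toLinearMap)
  have hP : ∀ x, P x = m ^ 2 • x - (2 • x - A x - A.symm x) := fun x => rfl
  have hinner : ∀ x y, inner ℝ (A x) y = inner ℝ x (A.symm y) := by
    intro x y
    rw [← LinearIsometryEquiv.inner_map_map A x (A.symm y), LinearIsometryEquiv.apply_symm_apply]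
  have hinner' : ∀ x y, inner ℝ (A.symm x) y = inner ℝ x (A y) := by
    intro x y
    rw [← LinearIsometryEquiv.inner_map_map A (A.symm x) y, LinearIsometryEquiv.apply_symm_apply]
  have hPsym : ∀ x y, inner ℝ (P x) y = inner ℝ x (P y) := by
    intro x y
    rw [hP, hP]
    simp only [inner_sub_left, inner_sub_right, inner_smul_left, inner_smul_right, two_smul,
      inner_add_left, inner_add_right, hinner, hinner']
    simp
    ring
  have hPquad : ∀ x, inner ℝ (P x) x = m ^ 2 * ‖x‖ ^ 2 - ‖A x - x‖ ^ 2 := by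
    intro x
    rw [hP, norm_sub_sq_real (A x) x, LinearIsometryEquiv.norm_map]
    simp only [inner_sub_left, inner_smul_left, two_smul, inner_add_left, hinner']
    rw [real_inner_self_eq_norm_sq, real_inner_comm (A x) x]
    simp
    ring
  have hPnonneg : ∀ x, 0 ≤ inner ℝ (P x) x := by
    intro x
    rw [hPquad, ← mul_pow]
    have h1 := hle x
    have h2 := norm_nonneg (A x - x)
    nlinarith
  have hPker : ∀ x, inner ℝ (P x) x = 0 → P x = 0 := by
    intro x hx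
    have h1 : ∀ t : ℝ, 0 ≤ inner ℝ (P (P x)) (P x) * (t * t) + (2 * inner ℝ (P x) (P x)) * t + 0 := by
      intro t
      have h2 := hPnonneg (x + t • P x)
      rw [map_add, map_smul] at h2
      simp only [inner_add_left, inner_add_right, inner_smul_left, inner_smul_right] at h2
      rw [hx, hPsym (P x) x] at h2
      simp at h2
      simp only [real_inner_self_eq_norm_sq] at h2 ⊢
      linarith
    have h3 := discrim_le_zero h1
    rw [discrim] at h3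
    have h4 : inner ℝ (P x) (P x) = 0 := by nlinarith [sq_nonneg (inner ℝ (P x) (P x) : ℝ)]
    exact inner_self_eq_zero.mp h4
  let V : Submodule ℝ E := LinearMap.ker P
  have hV : ∀ x, x ∈ V ↔ P x = 0 := fun x => LinearMap.mem_ker
  have hVeq : ∀ x ∈ V, ‖A x - x‖ = m * ‖x‖ := by
    intro x hx
    have h1 := hPquad x
    rw [(hV x).mp hx, inner_zero_left] at h1
    have h2 : ‖A x - x‖ ^ 2 = (m * ‖x‖) ^ 2 := by rw [mul_pow]; linarith
    exact (sq_eq_sq₀ (norm_nonneg _) (by positivity)).mp h2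
  have hAV : ∀ x ∈ V, A x ∈ V := by
    intro x hx
    rw [hV] at hx ⊢
    have h1 : P (A x) = A (P x) := by
      rw [hP, hP]
      simp only [map_sub, map_smul, LinearIsometryEquiv.apply_symm_apply,
        LinearIsometryEquiv.symm_apply_apply, two_smul, map_add]
    rw [h1, hx, map_zero]
  have hAV' : ∀ x ∈ V, A.symm x ∈ V := by
    intro x hx
    rw [hV] at hx ⊢
    have h1 : P (A.symm x) = A.symm (P x) := by
      rw [hP, hP]
      simp only [map_sub, map_smul, LinearIsometryEquiv.apply_symm_apply,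
        LinearIsometryEquiv.symm_apply_apply, two_smul, map_add]
    rw [h1, hx, map_zero]
  have hAVo : ∀ x ∈ Vᗮ, A x ∈ Vᗮ := by
    intro x hx
    rw [Submodule.mem_orthogonal] at hx ⊢
    intro u hu
    rw [← hinner']
    exact hx _ (hAV' u hu)
  have hx₀V : x₀ ∈ V := by
    rw [hV]
    apply hPker
    rw [hPquad, hx₀]
    ring
  have hVne : V ≠ ⊥ := by
    intro h
    rw [h, Submodule.mem_bot] at hx₀V
    rw [hx₀V, norm_zero] at hx₀
    exact zero_ne_one hx₀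
  -- the second constant
  have hm' : ∃ m' : ℝ, 0 ≤ m' ∧ m' < m ∧ ∀ x ∈ Vᗮ, ‖A x - x‖ ≤ m' * ‖x‖ := by
    by_cases hne : ∃ x ∈ Vᗮ, ‖x‖ = 1
    · obtain ⟨x₂, hx₂, hx₂n⟩ := hne
      have hcomp : IsCompact (Metric.sphere (0 : E) 1 ∩ (Vᗮ : Set E)) :=
        (isCompact_sphere (0 : E) 1).inter_right (Submodule.isClosed_orthogonal V)
      obtain ⟨x₃, hx₃, hmax₃⟩ := hcomp.exists_isMaxOn
        ⟨x₂, by rwa [mem_sphere_zero_iff_norm], hx₂⟩ hcont.continuousOn
      have hx₃n : ‖x₃‖ = 1 := by simpa using hx₃.1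
      refine ⟨‖A x₃ - x₃‖, norm_nonneg _, ?_, ?_⟩
      · have h1 := hle x₃
        rw [hx₃n, mul_one] at h1
        rcases h1.lt_or_eq with h | h
        · exact h
        · exfalso
          have h2 : x₃ ∈ V := by
            rw [hV]
            apply hPker
            rw [hPquad, hx₃n, h]
            ring
          have h3 : inner ℝ x₃ x₃ = 0 := Submodule.inner_right_of_mem_orthogonal h2 hx₃.2
          rw [real_inner_self_eq_norm_sq, hx₃n] at h3
          norm_num at h3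
      · exact hscale Vᗮ _ fun y hy hyn => hmax₃ ⟨by rwa [mem_sphere_zero_iff_norm], hy⟩
    · push Not at hne
      refine ⟨0, le_rfl, hmpos, hscale Vᗮ 0 fun x hx hxn => absurd hxn (hne x hx)⟩
  obtain ⟨m', h0, h1, h2⟩ := hm'
  exact ⟨m, m', V, h0, h1, hVne, hAV, hAVo, hVeq, h2, hle⟩

end decomposition

section crystal

variable {E : Type*} [NormedAddCommGroup E] [InnerProductSpace ℝ E] [FiniteDimensional ℝ E]
variable {S : Type*} [Group S] (L : S → E ≃ₗᵢ[ℝ] E) (b : S → E)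

/-- Data of an isometric action `x ↦ L γ x + b γ` on `E` which is proper and cobounded. -/
structure CrystalData : Prop where
  hL : ∀ γ δ x, L (γ * δ) x = L γ (L δ x)
  hb : ∀ γ δ, b (γ * δ) = b γ + L γ (b δ)
  hfin : ∀ R : ℝ, {γ | ‖b γ‖ ≤ R}.Finite
  hcob : ∃ R : ℝ, ∀ z, ∃ γ, ‖b γ - z‖ ≤ R

variable {L b}

theorem CrystalData.L_one (h : CrystalData L b) (x : E) : L 1 x = x := by
  have h1 := h.hL 1 1 x
  rw [mul_one] at h1
  exact ((L 1).injective h1).symm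

theorem CrystalData.b_one (h : CrystalData L b) : b 1 = 0 := by
  have h1 := h.hb 1 1
  rw [mul_one, h.L_one] at h1
  simpa using h1

theorem CrystalData.L_inv_L (h : CrystalData L b) (γ : S) (x : E) : L γ⁻¹ (L γ x) = x := by
  rw [← h.hL, inv_mul_cancel, h.L_one]

theorem CrystalData.L_L_inv (h : CrystalData L b) (γ : S) (x : E) : L γ (L γ⁻¹ x) = x := by
  rw [← h.hL, mul_inv_cancel, h.L_one]

theorem CrystalData.b_inv (h : CrystalData L b) (γ : S) : b γ⁻¹ = - L γ⁻¹ (b γ) := by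
  have h1 := h.hb γ⁻¹ γ
  rw [inv_mul_cancel, h.b_one] at h1
  exact eq_neg_of_add_eq_zero_left h1.symm

theorem exists_finite_approx (L : S → E ≃ₗᵢ[ℝ] E) (ε : ℝ) (hε : 0 < ε) :
    ∃ t : Set S, t.Finite ∧ ∀ γ, ∃ δ ∈ t, ∀ x, ‖L γ x - L δ x‖ ≤ ε * ‖x‖ := by
  classical
  let c : S → (E →L[ℝ] E) := fun γ => (L γ : E →L[ℝ] E)
  have hc : ∀ γ x, c γ x = L γ x := fun γ x => rfl
  have hcn : ∀ γ, ‖c γ‖ ≤ 1 := fun γ =>
    ContinuousLinearMap.opNorm_le_bound _ zero_le_one fun x => by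
      rw [hc, LinearIsometryEquiv.norm_map, one_mul]
  have hproper : ProperSpace (E →L[ℝ] E) := FiniteDimensional.proper ℝ _
  have htb : TotallyBounded (Set.range c) :=
    (isCompact_closedBall (0 : E →L[ℝ] E) 1).totallyBounded.subset (by
      rintro _ ⟨γ, rfl⟩
      rw [mem_closedBall_zero_iff]
      exact hcn γ)
  obtain ⟨t, hts, htf, ht⟩ := Metric.finite_approx_of_totallyBounded htb ε hε
  choose! s hs using fun y (hy : y ∈ t) => hts hy
  refine ⟨s '' t, htf.image s, fun γ => ?_⟩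
  have h1 : c γ ∈ Set.range c := ⟨γ, rfl⟩
  have h2 := ht h1
  rw [Set.mem_iUnion₂] at h2
  obtain ⟨y, hy, hγ⟩ := h2
  refine ⟨s y, ⟨y, hy, rfl⟩, fun x => ?_⟩
  rw [← hc, ← hc, hs y hy, ← sub_apply]
  rw [Metric.mem_ball, dist_eq_norm] at hγ
  exact ((c γ - y).le_opNorm x).trans (mul_le_mul_of_nonneg_right hγ.le (norm_nonneg _))

/-- Elements with small rotation part and large translation part almost in `V`. -/
theorem CrystalData.exists_small (h : CrystalData L b) (V : Submodule ℝ E) (hV : V ≠ ⊥) (ε : ℝ)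
    (hε : 0 < ε) :
    ∃ β : S, (∀ x, ‖L β x - x‖ ≤ ε * ‖x‖) ∧ ∃ p ∈ V, ∃ q ∈ Vᗮ, b β = p + q ∧ ‖q‖ < ‖p‖ := by
  classical
  obtain ⟨R, hR⟩ := h.hcob
  have hR0 : 0 ≤ R := by
    obtain ⟨γ, hγ⟩ := hR 0
    exact le_trans (norm_nonneg _) hγ
  obtain ⟨v, hv, hv0⟩ := Submodule.exists_mem_ne_zero_of_ne_bot hV
  set u : E := (‖v‖)⁻¹ • v with hu
  have huV : u ∈ V := V.smul_mem _ hv
  have hun : ‖u‖ = 1 := by
    rw [hu, norm_smul, norm_inv, norm_norm, inv_mul_cancel₀ (norm_ne_zero_iff.mpr hv0)]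
  let r : ℕ → ℝ := fun j => (R + 1) * 8 ^ (j + 1)
  have hr0 : ∀ j, 0 < r j := fun j => by positivity
  choose g hg using fun j : ℕ => hR (r j • u)
  obtain ⟨t, htf, ht⟩ := exists_finite_approx L (ε / 2) (by positivity)
  choose d hd hdle using ht
  have hpig : ∃ i j : ℕ, i < j ∧ d (g i) = d (g j) := by
    have hmt : Set.MapsTo (fun j : ℕ => d (g j)) Set.univ t := fun j _ => hd _
    obtain ⟨i, _, j, _, hne, heq⟩ :=
      Set.infinite_univ.exists_ne_map_eq_of_mapsTo hmt htf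
    rcases lt_or_gt_of_ne hne with hlt | hlt
    · exact ⟨i, j, hlt, heq⟩
    · exact ⟨j, i, hlt, heq.symm⟩
  obtain ⟨i, j, hij, hdij⟩ := hpig
  refine ⟨g j * (g i)⁻¹, ?_, ?_⟩
  · intro x
    have h1 : L (g j * (g i)⁻¹) x - x = L (g j) (L (g i)⁻¹ x) - L (g i) (L (g i)⁻¹ x) := by
      rw [h.hL, h.L_L_inv]
    rw [h1]
    set y := L (g i)⁻¹ x with hy
    have hyn : ‖y‖ = ‖x‖ := LinearIsometryEquiv.norm_map _ _
    have h2 := hdle (g j) y
    have h3 := hdle (g i) y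
    rw [hdij] at h3
    calc ‖L (g j) y - L (g i) y‖ = ‖(L (g j) y - L (d (g j)) y) - (L (g i) y - L (d (g j)) y)‖ := by
          congr 1; abel
      _ ≤ ‖L (g j) y - L (d (g j)) y‖ + ‖L (g i) y - L (d (g j)) y‖ := norm_sub_le _ _
      _ ≤ ε * ‖x‖ := by rw [← hyn]; linarith
  · have h1 : b (g j * (g i)⁻¹) = r j • u +
        ((b (g j) - r j • u) - L (g j) (L (g i)⁻¹ (b (g i)))) := by
      rw [h.hb, h.b_inv, map_neg]
      abel
    set e := ((b (g j) - r j • u) - L (g j) (L (g i)⁻¹ (b (g i)))) with he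
    have hen : ‖e‖ ≤ R + (R + r i) := by
      refine (norm_sub_le _ _).trans (add_le_add (hg j) ?_)
      rw [LinearIsometryEquiv.norm_map, LinearIsometryEquiv.norm_map]
      calc ‖b (g i)‖ = ‖(b (g i) - r i • u) + r i • u‖ := by congr 1; abel
        _ ≤ ‖b (g i) - r i • u‖ + ‖r i • u‖ := norm_add_le _ _
        _ ≤ R + r i := by
          refine add_le_add (hg i) ?_
          rw [norm_smul, hun, Real.norm_of_nonneg (hr0 i).le, mul_one]
    obtain ⟨p, hp, q, hq, hpq, hpn, hqn⟩ := exists_orth_decomp V e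
    refine ⟨r j • u + p, V.add_mem (V.smul_mem _ huV) hp, q, hq, ?_, ?_⟩
    · rw [h1, hpq]
      abel
    · have h2 : r j ≤ ‖r j • u + p‖ + ‖p‖ := by
        calc r j = ‖r j • u‖ := by rw [norm_smul, hun, Real.norm_of_nonneg (hr0 j).le, mul_one]
          _ = ‖(r j • u + p) - p‖ := by congr 1; abel
          _ ≤ _ := norm_sub_le _ _
      have h3 : 8 * r i ≤ r j := by
        have h4 : (8 : ℝ) ^ (i + 1 + 1) ≤ 8 ^ (j + 1) :=
          pow_le_pow_right₀ (by norm_num) (by omega)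
        calc 8 * r i = (R + 1) * 8 ^ (i + 1 + 1) := by simp only [r]; ring
          _ ≤ r j := mul_le_mul_of_nonneg_left h4 (by positivity)
      have h5 : 8 * (R + 1) ≤ r i := by
        have h4 : (8 : ℝ) ^ 1 ≤ 8 ^ (i + 1) := pow_le_pow_right₀ (by norm_num) (by omega)
        calc 8 * (R + 1) = (R + 1) * 8 ^ 1 := by ring
          _ ≤ r i := mul_le_mul_of_nonneg_left h4 (by positivity)
      linarith

theorem CrystalData.exists_min (h : CrystalData L b) (P : S → Prop) (hP : ∃ γ, P γ) :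
    ∃ γ, P γ ∧ ∀ δ, P δ → ‖b γ‖ ≤ ‖b δ‖ := by
  obtain ⟨γ₀, hγ₀⟩ := hP
  obtain ⟨γ, hγ, hmin⟩ := Set.exists_min_image {γ | P γ ∧ ‖b γ‖ ≤ ‖b γ₀‖} (fun γ => ‖b γ‖)
    ((h.hfin ‖b γ₀‖).subset fun γ hγ => hγ.2) ⟨γ₀, hγ₀, le_rfl⟩
  refine ⟨γ, hγ.1, fun δ hδ => ?_⟩
  by_cases h1 : ‖b δ‖ ≤ ‖b γ₀‖
  · exact hmin δ ⟨hδ, h1⟩
  · push Not at h1
    exact hγ.2.trans h1.le

/-- Buser's lemma: elements with rotation part close to `1` are translations. -/
theorem CrystalData.trans_of_close (h : CrystalData L b) (α₀ : S)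
    (hα₀ : ∀ x, ‖L α₀ x - x‖ ≤ 1 / 2 * ‖x‖) (x : E) : L α₀ x = x := by
  classical
  by_contra hcon
  obtain ⟨α, ⟨hα, hαne⟩, hαmin⟩ := h.exists_min
    (fun α => (∀ x, ‖L α x - x‖ ≤ 1 / 2 * ‖x‖) ∧ ∃ x, L α x ≠ x) ⟨α₀, hα₀, x, hcon⟩
  obtain ⟨m, m', V, hm'0, hm'm, hVne, hAV, hAVo, hVeq, hVole, hle⟩ := exists_top_space (L α) hαne
  have hm12 : m ≤ 1 / 2 := by
    obtain ⟨v, hv, hv0⟩ := Submodule.exists_mem_ne_zero_of_ne_bot hVne
    have h1 := hα v
    rw [hVeq v hv] at h1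
    exact le_of_mul_le_mul_right h1 (norm_pos_iff.mpr hv0)
  set μ : ℝ := (m - m') / 8 with hμ
  have hμ0 : 0 < μ := by rw [hμ]; linarith
  obtain ⟨β, ⟨hβ, p, hp, q, hq, hbpq, hqp⟩, hβmin⟩ := h.exists_min
    (fun β => (∀ x, ‖L β x - x‖ ≤ μ * ‖x‖) ∧ ∃ p ∈ V, ∃ q ∈ Vᗮ, b β = p + q ∧ ‖q‖ < ‖p‖)
    (h.exists_small V hVne μ hμ0)
  have horth : inner ℝ p q = 0 := Submodule.inner_right_of_mem_orthogonal hp hq
  have hbn : 0 < ‖b β‖ := by
    have h1 : ‖b β‖ ^ 2 = ‖p‖ ^ 2 + ‖q‖ ^ 2 := by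
      rw [hbpq, norm_add_sq_real, horth]; ring
    have h2 : 0 ≤ ‖q‖ := norm_nonneg _
    by_contra h3
    have h4 : ‖b β‖ = 0 := le_antisymm (not_lt.mp h3) (norm_nonneg _)
    rw [h4] at h1
    nlinarith
  have hbn2 : ‖b β‖ < 2 * ‖p‖ := by
    have := norm_add_le p q
    rw [← hbpq] at this
    linarith
  set κ : S := α * β * α⁻¹ * β⁻¹ with hκ
  -- rotation part of the commutator
  have hκL : ∀ x, ‖L κ x - x‖ ≤ 2 * m * μ * ‖x‖ := by
    intro x
    set y := L α⁻¹ (L β⁻¹ x) with hy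
    have hyn : ‖y‖ = ‖x‖ := by
      rw [hy, LinearIsometryEquiv.norm_map, LinearIsometryEquiv.norm_map]
    have h1 : L κ x = L α (L β y) := by rw [hκ, h.hL, h.hL, h.hL]
    have h2 : x = L β (L α y) := by rw [hy, h.L_L_inv, h.L_L_inv]
    have h3 : L κ x - x = (L α (L β y - y) - (L β y - y)) - (L β (L α y - y) - (L α y - y)) := by
      rw [h1, map_sub, map_sub, ← h2]
      abel
    rw [h3]
    have h4 : ‖L α (L β y - y) - (L β y - y)‖ ≤ m * (μ * ‖x‖) :=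
      (hle _).trans (mul_le_mul_of_nonneg_left (by rw [← hyn]; exact hβ y) (by linarith))
    have h5 : ‖L β (L α y - y) - (L α y - y)‖ ≤ μ * (m * ‖x‖) :=
      (hβ _).trans (mul_le_mul_of_nonneg_left (by rw [← hyn]; exact hle y) hμ0.le)
    calc _ ≤ ‖L α (L β y - y) - (L β y - y)‖ + ‖L β (L α y - y) - (L α y - y)‖ := norm_sub_le _ _
      _ ≤ _ := by linarith
  -- translation part
  have hκb : b κ = (L α (b β) - b β) + ((b β - L κ (b β)) +
      L α (L α⁻¹ (b α) - L β (L α⁻¹ (b α)))) := by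
    have h1 : b κ = b α + (L α (b β) + (L α (L β (- L α⁻¹ (b α))) +
        L α (L β (L α⁻¹ (- L β⁻¹ (b β)))))) := by
      rw [hκ, h.hb, h.hb, h.hb, h.hL, h.hL, h.hL, h.b_inv, h.b_inv]
      abel
    have h2 : L κ (b β) = L α (L β (L α⁻¹ (L β⁻¹ (b β)))) := by rw [hκ, h.hL, h.hL, h.hL]
    rw [h1, h2, map_sub, h.L_L_inv]
    simp only [map_neg]
    abel
  set r : E := ((b β - L κ (b β)) + L α (L α⁻¹ (b α) - L β (L α⁻¹ (b α)))) with hr
  have hrn : ‖r‖ ≤ 2 * μ * ‖b β‖ := by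
    by_cases hβt : ∀ x, L β x = x
    · have h1 : L κ (b β) = b β := by
        rw [hκ, h.hL, h.hL, h.hL]
        have h2 : L β⁻¹ (b β) = b β := by
          have := h.L_inv_L β (b β)
          rwa [hβt] at this
        rw [h2, hβt, h.L_L_inv]
      rw [hr, h1, hβt, sub_self, sub_self, map_zero, add_zero, norm_zero]
      positivity
    · push Not at hβt
      have h1 : ‖b α‖ ≤ ‖b β‖ := hαmin β ⟨fun x => (hβ x).trans
        (mul_le_mul_of_nonneg_right (by rw [hμ]; linarith) (norm_nonneg _)), hβt⟩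
      have h2 : ‖b β - L κ (b β)‖ ≤ 2 * m * μ * ‖b β‖ := by
        rw [norm_sub_rev]; exact hκL _
      have h3 : ‖L α (L α⁻¹ (b α) - L β (L α⁻¹ (b α)))‖ ≤ μ * ‖b β‖ := by
        rw [LinearIsometryEquiv.norm_map, norm_sub_rev]
        refine (hβ _).trans ?_
        rw [LinearIsometryEquiv.norm_map]
        exact mul_le_mul_of_nonneg_left h1 hμ0.le
      have h4 : 2 * m * μ * ‖b β‖ ≤ μ * ‖b β‖ := by
        have : 0 ≤ μ * ‖b β‖ := by positivity
        nlinarith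
      calc ‖r‖ ≤ _ := norm_add_le _ _
        _ ≤ _ := by linarith
  obtain ⟨r₁, hr₁, r₂, hr₂, hr12, hr₁n, hr₂n⟩ := exists_orth_decomp V r
  have hκP : (∀ x, ‖L κ x - x‖ ≤ μ * ‖x‖) ∧ ∃ p ∈ V, ∃ q ∈ Vᗮ, b κ = p + q ∧ ‖q‖ < ‖p‖ := by
    refine ⟨fun x => (hκL x).trans ?_, (L α p - p) + r₁,
      V.add_mem (V.sub_mem (hAV p hp) hp) hr₁, (L α q - q) + r₂,
      Vᗮ.add_mem (Vᗮ.sub_mem (hAVo q hq) hq) hr₂, ?_, ?_⟩
    · have : 0 ≤ μ * ‖x‖ := by positivity
      nlinarith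
    · rw [hκb, hr12, hbpq, map_add]
      abel
    · have h1 : ‖L α q - q‖ ≤ m' * ‖q‖ := hVole q hq
      have h2 : ‖L α p - p‖ = m * ‖p‖ := hVeq p hp
      have h3 : ‖L α q - q + r₂‖ ≤ m' * ‖q‖ + ‖r‖ := (norm_add_le _ _).trans (add_le_add h1 hr₂n)
      have h4 : m * ‖p‖ ≤ ‖L α p - p + r₁‖ + ‖r‖ := by
        rw [← h2]
        calc ‖L α p - p‖ = ‖(L α p - p + r₁) - r₁‖ := by congr 1; abel
          _ ≤ ‖L α p - p + r₁‖ + ‖r₁‖ := norm_sub_le _ _
          _ ≤ _ := by linarith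
      have h5 : m' * ‖q‖ ≤ m' * ‖p‖ := mul_le_mul_of_nonneg_left hqp.le hm'0
      have h6 : 2 * ‖r‖ < (m - m') * ‖p‖ := by
        have : 2 * μ * ‖b β‖ < 2 * μ * (2 * ‖p‖) := mul_lt_mul_of_pos_left hbn2 (by positivity)
        have h7 : 2 * μ * (2 * ‖p‖) = (m - m') / 2 * ‖p‖ := by rw [hμ]; ring
        linarith
      linarith
  have h1 := hβmin κ hκP
  have h2 : ‖b κ‖ ≤ m * ‖b β‖ + 2 * μ * ‖b β‖ := by
    rw [hκb]
    exact (norm_add_le _ _).trans (add_le_add (hle _) hrn)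
  have h3 : m + 2 * μ < 1 := by rw [hμ]; linarith
  nlinarith

theorem CrystalData.span_translations (h : CrystalData L b) :
    Submodule.span ℝ (b '' {τ | ∀ x, L τ x = x}) = ⊤ := by
  classical
  set W := Submodule.span ℝ (b '' {τ | ∀ x, L τ x = x}) with hW
  obtain ⟨R, hR⟩ := h.hcob
  obtain ⟨t, htf, ht⟩ := exists_finite_approx L (1 / 2) (by norm_num)
  have hWinv : ∀ γ, ∀ w ∈ W, L γ w ∈ W := by
    intro γ w hw
    have h1 : W.map (L γ).toLinearEquiv.toLinearMap ≤ W := by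
      rw [hW, Submodule.map_span, Submodule.span_le]
      rintro _ ⟨_, ⟨τ, hτ, rfl⟩, rfl⟩
      apply Submodule.subset_span
      have hτ' : ∀ x, L τ x = x := hτ
      refine ⟨γ * τ * γ⁻¹, ?_, ?_⟩
      · intro x
        rw [h.hL, h.hL, hτ', h.L_L_inv]
      · rw [h.hb, h.hb, h.hL, hτ', h.b_inv, map_neg, h.L_L_inv]
        change b γ + L γ (b τ) + - b γ = L γ (b τ)
        abel
    exact h1 ⟨w, hw, rfl⟩
  -- bounded bound
  obtain ⟨ρ, hρ⟩ : ∃ ρ : ℝ, ∀ δ ∈ t, ‖b δ‖ ≤ ρ := by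
    obtain ⟨ρ, hρ⟩ := (htf.image (fun δ => ‖b δ‖)).bddAbove
    exact ⟨ρ, fun δ hδ => hρ ⟨δ, hδ, rfl⟩⟩
  by_contra hne
  have hperp : Wᗮ ≠ ⊥ := by
    intro h1
    exact hne (Submodule.orthogonal_eq_bot_iff.mp h1)
  obtain ⟨v, hv, hv0⟩ := Submodule.exists_mem_ne_zero_of_ne_bot hperp
  have hvn : 0 < ‖v‖ := norm_pos_iff.mpr hv0
  set s : ℝ := (|R| + |ρ| + 1) / ‖v‖ with hs
  have hs0 : 0 < s := by positivity
  have hsn : ‖s • v‖ = |R| + |ρ| + 1 := by
    rw [norm_smul, Real.norm_of_nonneg hs0.le, hs]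
    field_simp
  obtain ⟨γ, hγ⟩ := hR (s • v)
  obtain ⟨δ, hδ, hγδ⟩ := ht γ
  have hτ : ∀ x, L (δ⁻¹ * γ) x = x := by
    intro x
    refine h.trans_of_close (δ⁻¹ * γ) (fun y => ?_) x
    have h1 : L (δ⁻¹ * γ) y - y = L δ⁻¹ (L γ y - L δ y) := by
      rw [h.hL, map_sub, h.L_inv_L]
    rw [h1, LinearIsometryEquiv.norm_map]
    exact hγδ y
  have hbγ : b γ = b δ + L δ (b (δ⁻¹ * γ)) := by
    rw [← h.hb]
    congr 1
    group
  have hmem : L δ (b (δ⁻¹ * γ)) ∈ W := hWinv δ _ (Submodule.subset_span ⟨_, hτ, rfl⟩)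
  set w := L δ (b (δ⁻¹ * γ)) with hw
  have h1 : ‖w - s • v‖ ≤ |R| + |ρ| := by
    calc ‖w - s • v‖ = ‖(b γ - s • v) - b δ‖ := by rw [hbγ]; congr 1; abel
      _ ≤ ‖b γ - s • v‖ + ‖b δ‖ := norm_sub_le _ _
      _ ≤ |R| + |ρ| := add_le_add (hγ.trans (le_abs_self _)) ((hρ δ hδ).trans (le_abs_self _))
  have h2 : ‖w - s • v‖ ^ 2 = ‖w‖ ^ 2 + ‖s • v‖ ^ 2 := by
    have h3 : inner ℝ w (s • v) = 0 :=
      Submodule.inner_right_of_mem_orthogonal hmem (Wᗮ.smul_mem _ hv)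
    rw [norm_sub_sq_real, h3]
    ring
  rw [hsn] at h2
  have h4 : 0 ≤ ‖w - s • v‖ := norm_nonneg _
  have h5 : 0 ≤ |R| + |ρ| := by positivity
  nlinarith [sq_nonneg ‖w‖]

theorem CrystalData.b_pow (h : CrystalData L b) {τ : S} (hτ : ∀ x, L τ x = x) (n : ℕ) :
    (∀ x, L (τ ^ n) x = x) ∧ b (τ ^ n) = n • b τ := by
  induction n with
  | zero => simp [h.L_one, h.b_one]
  | succ n ih =>
    refine ⟨fun x => ?_, ?_⟩
    · rw [pow_succ, h.hL, hτ, ih.1]
    · rw [pow_succ, h.hb, ih.1, ih.2, succ_nsmul]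

theorem CrystalData.b_zpow (h : CrystalData L b) {τ : S} (hτ : ∀ x, L τ x = x) (n : ℤ) :
    (∀ x, L (τ ^ n) x = x) ∧ b (τ ^ n) = n • b τ := by
  have hinv : ∀ {σ : S}, (∀ x, L σ x = x) → (∀ x, L σ⁻¹ x = x) ∧ b σ⁻¹ = - b σ := by
    intro σ hσ
    have h1 : ∀ x, L σ⁻¹ x = x := fun x => by
      have := h.L_inv_L σ x
      rwa [hσ] at this
    exact ⟨h1, by rw [h.b_inv, h1]⟩
  rcases n with n | n
  · simpa using h.b_pow hτ n
  · have h1 := h.b_pow hτ (n + 1)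
    have h2 := hinv h1.1
    rw [zpow_negSucc]
    refine ⟨h2.1, ?_⟩
    rw [h2.2, h1.2, negSucc_zsmul]

/-- Some power of a translation commutes with a given translation. -/
theorem CrystalData.exists_commute_pow (h : CrystalData L b) {τ σ : S} (hτ : ∀ x, L τ x = x)
    (hσ : ∀ x, L σ x = x) : ∃ n : ℕ, 0 < n ∧ Commute (τ ^ n) σ := by
  classical
  let c : ℕ → S := fun n => τ ^ n * σ * (τ ^ n)⁻¹
  have hc : ∀ n, b (c n) = b σ := by
    intro n
    have h1 := h.b_pow hτ n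
    have h2 : ∀ x, L (τ ^ n)⁻¹ x = x := fun x => by
      have := h.L_inv_L (τ ^ n) x
      rwa [h1.1] at this
    simp only [c]
    rw [h.hb, h.hb, h.hL, hσ, h1.1, h1.1, h.b_inv, h2]
    abel
  have hmt : Set.MapsTo c Set.univ {γ | ‖b γ‖ ≤ ‖b σ‖} := fun n _ => by
    change ‖b (c n)‖ ≤ ‖b σ‖
    rw [hc]
  obtain ⟨i, _, j, _, hne, heq⟩ :=
    Set.infinite_univ.exists_ne_map_eq_of_mapsTo hmt (h.hfin _)
  have key : ∀ i j : ℕ, i < j → c i = c j → ∃ n : ℕ, 0 < n ∧ Commute (τ ^ n) σ := by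
    intro i j hij hcij
    refine ⟨j - i, by omega, ?_⟩
    obtain ⟨d, rfl⟩ := Nat.exists_eq_add_of_lt hij
    have h1 : i + d + 1 - i = d + 1 := by omega
    rw [h1]
    simp only [c] at hcij
    have h2 : τ ^ (i + d + 1) = τ ^ i * τ ^ (d + 1) := by rw [← pow_add]; congr 1
    rw [h2, mul_inv_rev] at hcij
    have h3 : σ = τ ^ (d + 1) * σ * (τ ^ (d + 1))⁻¹ := by
      calc σ = (τ ^ i)⁻¹ * (τ ^ i * σ * (τ ^ i)⁻¹) * τ ^ i := by group
        _ = (τ ^ i)⁻¹ * (τ ^ i * τ ^ (d + 1) * σ * ((τ ^ (d + 1))⁻¹ * (τ ^ i)⁻¹)) * τ ^ i := by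
          rw [hcij]
        _ = τ ^ (d + 1) * σ * (τ ^ (d + 1))⁻¹ := by group
    change τ ^ (d + 1) * σ = σ * τ ^ (d + 1)
    calc τ ^ (d + 1) * σ = (τ ^ (d + 1) * σ * (τ ^ (d + 1))⁻¹) * τ ^ (d + 1) := by group
      _ = σ * τ ^ (d + 1) := by rw [← h3]
  rcases lt_or_gt_of_ne hne with hlt | hlt
  · exact key i j hlt heq
  · exact key j i hlt heq.symm

/-- A group with a proper cobounded isometric action on `E` contains `ℤ ^ dim E`. -/
theorem CrystalData.exists_free_abelian (h : CrystalData L b) :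
    ∃ φ : Multiplicative (Fin (Module.finrank ℝ E) → ℤ) →* S, Function.Injective φ := by
  classical
  have hex : ∃ f : Fin (Module.finrank ℝ E) → E,
      (∀ i, f i ∈ b '' {τ | ∀ x, L τ x = x}) ∧ LinearIndependent ℝ f := by
    have h1 := Submodule.exists_fun_fin_finrank_span_eq ℝ (b '' {τ | ∀ x, L τ x = x})
    rw [h.span_translations, finrank_top] at h1
    obtain ⟨f, hf, _, hlin⟩ := h1
    exact ⟨f, hf, hlin⟩
  obtain ⟨f, hf, hlin⟩ := hex
  choose τ hτ hbτ using hf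
  have hτ' : ∀ i x, L (τ i) x = x := hτ
  choose n hn0 hn using fun i j => h.exists_commute_pow (hτ' i) (hτ' j)
  set N : ℕ := ∏ i, ∏ j, n i j with hN
  have hN0 : 0 < N := Finset.prod_pos fun i _ => Finset.prod_pos fun j _ => hn0 i j
  have hNdvd : ∀ i j, n i j ∣ N := fun i j =>
    (Finset.dvd_prod_of_mem (fun j => n i j) (Finset.mem_univ j)).trans
      (Finset.dvd_prod_of_mem (fun i => ∏ j, n i j) (Finset.mem_univ i))
  have hcomm : ∀ i j, Commute (τ i ^ N) (τ j ^ N) := by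
    intro i j
    obtain ⟨c, hc⟩ := hNdvd i j
    rw [hc, pow_mul]
    exact ((hn i j).pow_left c).pow_right _
  let T : Subgroup S :=
    { carrier := {τ | ∀ x, L τ x = x}
      mul_mem' := by
        intro α β hα hβ x
        rw [h.hL, hβ, hα]
      one_mem' := h.L_one
      inv_mem' := by
        intro α hα x
        have := h.L_inv_L α x
        rwa [hα] at this }
  let bT : T →* Multiplicative E :=
    { toFun := fun τ => Multiplicative.ofAdd (b τ)
      map_one' := by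
        change Multiplicative.ofAdd (b 1) = 1
        rw [h.b_one]
        rfl
      map_mul' := by
        intro α β
        change Multiplicative.ofAdd (b (α * β)) = _
        rw [h.hb, α.2]
        rfl }
  let t : Fin (Module.finrank ℝ E) → T := fun i => ⟨τ i ^ N, (h.b_pow (hτ' i) N).1⟩
  have htcomm : ∀ i j, Commute (t i) (t j) := fun i j => Subtype.ext (hcomm i j)
  have hbt : ∀ i, bT (t i) = Multiplicative.ofAdd ((N : ℝ) • f i) := by
    intro i
    change Multiplicative.ofAdd (b (τ i ^ N)) = _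
    rw [(h.b_pow (hτ' i) N).2, hbτ, Nat.cast_smul_eq_nsmul]
  have hpair : Pairwise fun i j => ∀ x y : Multiplicative ℤ,
      Commute (zpowersHom T (t i) x) (zpowersHom T (t j) y) := by
    intro i j _ x y
    rw [zpowersHom_apply, zpowersHom_apply]
    exact (htcomm i j).zpow_zpow _ _
  let ψ : (∀ _ : Fin (Module.finrank ℝ E), Multiplicative ℤ) →* T :=
    MonoidHom.noncommPiCoprod (fun i => zpowersHom T (t i)) hpair
  have hψ : ∀ m, bT (ψ m) = Multiplicative.ofAdd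
      (∑ i, ((m i).toAdd : ℝ) • ((N : ℝ) • f i)) := by
    intro m
    simp only [ψ]
    rw [MonoidHom.noncommPiCoprod_apply, Finset.map_noncommProd, Finset.noncommProd_eq_prod,
      ofAdd_sum]
    refine Finset.prod_congr rfl fun i _ => ?_
    rw [zpowersHom_apply, map_zpow, hbt, ← ofAdd_zsmul, Int.cast_smul_eq_zsmul]
  have hψinj : Function.Injective ψ := by
    rw [injective_iff_map_eq_one]
    intro m hm
    have h1 := hψ m
    rw [hm, map_one] at h1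
    have h2 : ∑ i, (((m i).toAdd : ℝ) * (N : ℝ)) • f i = 0 := by
      have h3 : ∑ i, ((m i).toAdd : ℝ) • ((N : ℝ) • f i) = 0 := by
        have := congrArg Multiplicative.toAdd h1
        rw [toAdd_one, toAdd_ofAdd] at this
        exact this.symm
      simpa only [smul_smul] using h3
    rw [Fintype.linearIndependent_iff] at hlin
    funext i
    have h4 := hlin _ h2 i
    have h5 : (N : ℝ) ≠ 0 := by exact_mod_cast hN0.ne'
    have h6 : (((m i).toAdd : ℤ) : ℝ) = 0 := by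
      rcases mul_eq_zero.mp h4 with h7 | h7
      · exact h7
      · exact absurd h7 h5
    have h7 : (m i).toAdd = 0 := by exact_mod_cast h6
    exact toAdd_eq_zero.mp h7
  let ι : Multiplicative (Fin (Module.finrank ℝ E) → ℤ) →*
      (∀ _ : Fin (Module.finrank ℝ E), Multiplicative ℤ) :=
    { toFun := fun m i => Multiplicative.ofAdd (m.toAdd i)
      map_one' := rfl
      map_mul' := fun _ _ => rfl }
  have hι : Function.Injective ι := by
    intro m m' hmm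
    apply Multiplicative.toAdd.injective
    funext i
    have := congrFun hmm i
    exact Multiplicative.ofAdd.injective this
  exact ⟨T.subtype.comp (ψ.comp ι), T.subtype_injective.comp (hψinj.comp hι)⟩

end crystal

end Pool.Agent.MP140312CF
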