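import Mathlib

/-!
# Near isometries of Euclidean space are uniformly close to isometries (Hyers–Ulam)
-/

namespace Pool.Agent.MP140312CF

open Filter Topology

variable {E : Type*} [NormedAddCommGroup E] [InnerProductSpace ℝ E] [FiniteDimensional ℝ E]

theorem near_isometry (f : E → E) (ε : ℝ) (hf : ∀ x y, |dist (f x) (f y) - dist x y| ≤ ε) :
    ∃ L : E ≃ₗᵢ[ℝ] E, ∀ x, ‖f x - f 0 - L x‖ ≤ 2 * ε := by
  have hε : 0 ≤ ε := le_trans (abs_nonneg _) (hf 0 0)
  have hE : ProperSpace E := FiniteDimensional.proper ℝ E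
  set g : E → E := fun x => f x - f 0 with hg
  have hg0 : g 0 = 0 := by simp [hg]
  have hgd : ∀ x y, |dist (g x) (g y) - dist x y| ≤ ε := by
    intro x y
    have : dist (g x) (g y) = dist (f x) (f y) := by simp [hg]
    rw [this]
    exact hf x y
  have hgn : ∀ x, |‖g x‖ - ‖x‖| ≤ ε := by
    intro x
    have := hgd x 0
    rwa [hg0, dist_zero_right, dist_zero_right] at this
  let U : Ultrafilter ℕ := hyperfilter ℕ
  have hU : (U : Filter ℕ) ≤ atTop := by
    rw [← Nat.cofinite_eq_atTop]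
    exact hyperfilter_le_cofinite
  have hU1 : ∀ᶠ n : ℕ in (U : Filter ℕ), 1 ≤ n := hU (eventually_ge_atTop 1)
  -- the ultralimit
  have hlim : ∀ x, ∃ l, Tendsto (fun n : ℕ => (1 / (n : ℝ)) • g ((n : ℝ) • x)) U (𝓝 l) := by
    intro x
    have hK : IsCompact (Metric.closedBall (0 : E) (‖x‖ + ε)) := isCompact_closedBall _ _
    have hmem : ∀ᶠ n : ℕ in (U : Filter ℕ),
        (1 / (n : ℝ)) • g ((n : ℝ) • x) ∈ Metric.closedBall (0 : E) (‖x‖ + ε) := by
      filter_upwards [hU1] with n hn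
      have hn' : (1 : ℝ) ≤ n := by exact_mod_cast hn
      rw [mem_closedBall_zero_iff, norm_smul, Real.norm_of_nonneg (by positivity)]
      have h1 := hgn ((n : ℝ) • x)
      rw [abs_le] at h1
      rw [norm_smul, Real.norm_of_nonneg (by positivity)] at h1
      have h2 : ‖g ((n : ℝ) • x)‖ ≤ n * ‖x‖ + ε := by linarith [h1.2]
      rw [one_div, inv_mul_le_iff₀ (by positivity)]
      nlinarith
    obtain ⟨l, _, hl⟩ := isCompact_iff_ultrafilter_le_nhds.mp hK
      (U.map (fun n : ℕ => (1 / (n : ℝ)) • g ((n : ℝ) • x)))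
      (by
        rw [le_principal_iff]
        exact hmem)
    exact ⟨l, hl⟩
  choose L0 hL0 using hlim
  have htend0 : Tendsto (fun n : ℕ => (1 / (n : ℝ))) U (𝓝 0) :=
    tendsto_one_div_atTop_nhds_zero_nat.mono_left hU
  have hiso : Isometry L0 := by
    refine Isometry.of_dist_eq fun x y => ?_
    have h1 : Tendsto (fun n : ℕ => dist ((1 / (n : ℝ)) • g ((n : ℝ) • x))
        ((1 / (n : ℝ)) • g ((n : ℝ) • y))) U (𝓝 (dist (L0 x) (L0 y))) :=
      (hL0 x).dist (hL0 y)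
    have h2 : Tendsto (fun n : ℕ => dist ((1 / (n : ℝ)) • g ((n : ℝ) • x))
        ((1 / (n : ℝ)) • g ((n : ℝ) • y))) U (𝓝 (dist x y)) := by
      rw [tendsto_iff_dist_tendsto_zero]
      have h3 : Tendsto (fun n : ℕ => (1 / (n : ℝ)) * ε) U (𝓝 0) := by
        simpa using htend0.mul_const ε
      refine squeeze_zero' (Eventually.of_forall fun _ => dist_nonneg) ?_ h3
      filter_upwards [hU1] with n hn
      have hn' : (1 : ℝ) ≤ n := by exact_mod_cast hn
      have hn0 : (0 : ℝ) < n := by linarith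
      rw [Real.dist_eq, dist_smul₀, Real.norm_of_nonneg (by positivity)]
      have h4 : dist x y = 1 / (n : ℝ) * dist ((n : ℝ) • x) ((n : ℝ) • y) := by
        rw [dist_smul₀, Real.norm_of_nonneg hn0.le]
        field_simp
      rw [h4, ← mul_sub, abs_mul, abs_of_nonneg (by positivity : (0 : ℝ) ≤ 1 / (n : ℝ))]
      exact mul_le_mul_of_nonneg_left (hgd _ _) (by positivity)
    exact tendsto_nhds_unique h1 h2
  have hL00 : L0 0 = 0 := by
    have h1 : Tendsto (fun n : ℕ => (1 / (n : ℝ)) • g ((n : ℝ) • (0 : E))) U (𝓝 0) := by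
      simp [hg0]
    exact tendsto_nhds_unique (hL0 0) h1
  let L1 : E →ₗᵢ[ℝ] E := (hiso.affineIsometryOfStrictConvexSpace).linearIsometry
  have hL1 : ∀ x, L1 x = L0 x := by
    intro x
    have h1 : hiso.affineIsometryOfStrictConvexSpace (x +ᵥ (0 : E)) =
        L1 x +ᵥ hiso.affineIsometryOfStrictConvexSpace 0 :=
      hiso.affineIsometryOfStrictConvexSpace.map_vadd 0 x
    rw [Isometry.coe_affineIsometryOfStrictConvexSpace] at h1
    simp only [vadd_eq_add, add_zero, hL00] at h1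
    exact h1.symm
  let L : E ≃ₗᵢ[ℝ] E := L1.toLinearIsometryEquiv rfl
  have hL : ∀ x, L x = L0 x := by
    intro x
    rw [← hL1]
    rfl
  -- the key inequality
  have key : ∀ x u : E, |2 * inner ℝ (g x) (L u) - 2 * inner ℝ x u| ≤ 4 * ε * ‖u‖ := by
    intro x u
    have h1 : Tendsto (fun n : ℕ => |2 * inner ℝ (g x) ((1 / (n : ℝ)) • g ((n : ℝ) • u))
        - 2 * inner ℝ x u|) U (𝓝 |2 * inner ℝ (g x) (L u) - 2 * inner ℝ x u|) := by
      rw [hL]
      exact (((tendsto_const_nhds.inner (hL0 u)).const_mul 2).sub_const _).abs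
    set c : ℝ := ε * (2 * ‖x‖ + 2 * ε) + ‖g x‖ ^ 2 + ‖x‖ ^ 2 with hc
    have h2 : Tendsto (fun n : ℕ => 4 * ε * ‖u‖ + (1 / (n : ℝ)) * c) U (𝓝 (4 * ε * ‖u‖)) := by
      simpa using (htend0.mul_const c).const_add (4 * ε * ‖u‖)
    refine le_of_tendsto_of_tendsto h1 h2 ?_
    filter_upwards [hU1] with n hn
    have hn' : (1 : ℝ) ≤ n := by exact_mod_cast hn
    have hn0 : (0 : ℝ) < n := by linarith
    set P := ‖g ((n : ℝ) • u)‖ with hP
    set Q := ‖g x - g ((n : ℝ) • u)‖ with hQ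
    set p := ‖(n : ℝ) • u‖ with hp
    set q := ‖x - (n : ℝ) • u‖ with hq
    have hPp : |P - p| ≤ ε := hgn _
    have hQq : |Q - q| ≤ ε := by
      have := hgd x ((n : ℝ) • u)
      rwa [dist_eq_norm, dist_eq_norm] at this
    have hpu : p = n * ‖u‖ := by
      rw [hp, norm_smul, Real.norm_of_nonneg hn0.le]
    have hqu : q ≤ ‖x‖ + n * ‖u‖ := by
      rw [← hpu]
      exact norm_sub_le _ _
    have hp0 : 0 ≤ p := norm_nonneg _
    have hq0 : 0 ≤ q := norm_nonneg _
    have hP0 : 0 ≤ P := norm_nonneg _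
    have hQ0 : 0 ≤ Q := norm_nonneg _
    have e1 : Q ^ 2 = ‖g x‖ ^ 2 - 2 * inner ℝ (g x) (g ((n : ℝ) • u)) + P ^ 2 :=
      norm_sub_sq_real _ _
    have e2 : q ^ 2 = ‖x‖ ^ 2 - 2 * inner ℝ x ((n : ℝ) • u) + p ^ 2 :=
      norm_sub_sq_real _ _
    rw [inner_smul_right] at e2
    rw [inner_smul_right]
    have e3 : 2 * (1 / (n : ℝ) * inner ℝ (g x) (g ((n : ℝ) • u))) - 2 * inner ℝ x u =
        (1 / (n : ℝ)) * (‖g x‖ ^ 2 - ‖x‖ ^ 2 + (P - p) * (P + p) - (Q - q) * (Q + q)) := by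
      field_simp
      linear_combination e1 - e2
    rw [e3, abs_mul, abs_of_nonneg (by positivity : (0 : ℝ) ≤ 1 / (n : ℝ))]
    have e4 : |‖g x‖ ^ 2 - ‖x‖ ^ 2 + (P - p) * (P + p) - (Q - q) * (Q + q)| ≤
        n * (4 * ε * ‖u‖) + c := by
      have a1 : |(P - p) * (P + p)| ≤ ε * (2 * p + ε) := by
        rw [abs_mul, abs_of_nonneg (by positivity : 0 ≤ P + p)]
        have := (abs_le.mp hPp).2
        exact mul_le_mul hPp (by linarith) (by positivity) hε
      have a2 : |(Q - q) * (Q + q)| ≤ ε * (2 * q + ε) := by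
        rw [abs_mul, abs_of_nonneg (by positivity : 0 ≤ Q + q)]
        have := (abs_le.mp hQq).2
        exact mul_le_mul hQq (by linarith) (by positivity) hε
      have a3 : ε * q ≤ ε * (‖x‖ + n * ‖u‖) := mul_le_mul_of_nonneg_left hqu hε
      have a4 : (0 : ℝ) ≤ ‖g x‖ ^ 2 := by positivity
      have a5 : (0 : ℝ) ≤ ‖x‖ ^ 2 := by positivity
      rw [abs_le] at a1 a2 ⊢
      rw [hc]
      rw [hpu] at a1
      constructor
      · nlinarith [a1.1, a2.2, a3]
      · nlinarith [a1.2, a2.1, a3]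
    calc 1 / (n : ℝ) * |‖g x‖ ^ 2 - ‖x‖ ^ 2 + (P - p) * (P + p) - (Q - q) * (Q + q)|
        ≤ 1 / (n : ℝ) * (n * (4 * ε * ‖u‖) + c) :=
          mul_le_mul_of_nonneg_left e4 (by positivity)
      _ = 4 * ε * ‖u‖ + 1 / (n : ℝ) * c := by field_simp
  refine ⟨L, fun x => ?_⟩
  set w := L.symm (g x) - x with hw
  have h1 := key x w
  have h2 : inner ℝ (g x) (L w) = inner ℝ (L.symm (g x)) w := by
    rw [← LinearIsometryEquiv.inner_map_map L (L.symm (g x)) w, LinearIsometryEquiv.apply_symm_apply]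
  have h3 : inner ℝ w w = inner ℝ (L.symm (g x)) w - inner ℝ x w := by
    rw [← inner_sub_left]
  have h4 : ‖w‖ ^ 2 ≤ 2 * ε * ‖w‖ := by
    have := (abs_le.mp h1).2
    rw [h2] at this
    rw [real_inner_self_eq_norm_sq] at h3
    linarith
  have h5 : ‖w‖ ≤ 2 * ε := by
    by_cases hw0 : ‖w‖ = 0
    · rw [hw0]; positivity
    · have : 0 < ‖w‖ := lt_of_le_of_ne (norm_nonneg _) (Ne.symm hw0)
      nlinarith
  have h6 : ‖g x - L x‖ = ‖w‖ := by
    rw [hw, ← LinearIsometryEquiv.norm_map L (L.symm (g x) - x), map_sub,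
      LinearIsometryEquiv.apply_symm_apply]
  change ‖g x - L x‖ ≤ 2 * ε
  rw [h6]
  exact h5

end Pool.Agent.MP140312CF
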