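import Pool.Agent.Lib.MP_140312_al_CountableFlats.Average
import Pool.Agent.Lib.MP_140312_al_CountableFlats.NearIso

/-!
# Minimal sets of parametrised flats
-/

namespace Pool.Agent.MP140312CF

open Filter Topology

section quasi

variable {E : Type*} [NormedAddCommGroup E] [InnerProductSpace ℝ E] [FiniteDimensional ℝ E]
variable {X : Type*} [MetricSpace X]

/-- A group of isometries coarsely preserving a flat acts on Euclidean space up to bounded
error. -/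
theorem exists_quasiData {S : Type*} [Group S] [MulAction S X] [IsIsometricSMul S X]
    (ψ : E → X) (hψ : Isometry ψ) (r : ℝ)
    (hnear : ∀ γ : S, ∀ z, ∃ z', dist (γ • ψ z) (ψ z') ≤ r)
    (hfin : ∀ R : ℝ, {γ : S | dist (γ • ψ 0) (ψ 0) ≤ R}.Finite)
    (hcob : ∃ R : ℝ, ∀ z, ∃ γ : S, dist (γ • ψ z) (ψ 0) ≤ R) :
    ∃ (L : S → E ≃ₗᵢ[ℝ] E) (b : S → E) (C : ℝ), QuasiData L b C := by
  classical
  choose f hf using hnear
  have hr : 0 ≤ r := le_trans dist_nonneg (hf 1 0)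
  have hquasi : ∀ γ : S, ∀ x y, |dist (f γ x) (f γ y) - dist x y| ≤ 2 * r := by
    intro γ x y
    have h1 : dist x y = dist (γ • ψ x) (γ • ψ y) := by rw [dist_smul, hψ.dist_eq]
    have h2 : dist (f γ x) (f γ y) = dist (ψ (f γ x)) (ψ (f γ y)) := (hψ.dist_eq _ _).symm
    rw [h1, h2, abs_sub_le_iff]
    have h3 := hf γ x
    have h4 := hf γ y
    constructor
    · have := dist_triangle4 (ψ (f γ x)) (γ • ψ x) (γ • ψ y) (ψ (f γ y))
      rw [dist_comm (ψ (f γ x)) (γ • ψ x)] at this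
      linarith
    · have := dist_triangle4 (γ • ψ x) (ψ (f γ x)) (ψ (f γ y)) (γ • ψ y)
      rw [dist_comm (ψ (f γ y)) (γ • ψ y)] at this
      linarith
  choose L hL using fun γ => near_isometry (f γ) (2 * r) (hquasi γ)
  have hff : ∀ γ δ x, ‖f (γ * δ) x - f γ (f δ x)‖ ≤ 3 * r := by
    intro γ δ x
    rw [← dist_eq_norm, ← hψ.dist_eq]
    have h1 := hf (γ * δ) x
    have h2 := hf γ (f δ x)
    have h3 : dist ((γ * δ) • ψ x) (γ • ψ (f δ x)) ≤ r := by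
      rw [mul_smul, dist_smul]
      exact hf δ x
    have h4 := dist_triangle4 (ψ (f (γ * δ) x)) ((γ * δ) • ψ x) (γ • ψ (f δ x)) (ψ (f γ (f δ x)))
    rw [dist_comm (ψ (f (γ * δ) x)) ((γ * δ) • ψ x)] at h4
    linarith
  -- comparison of linear parts
  have hcomp : ∀ γ δ x, ‖f (γ * δ) x - (f γ 0 + L γ (f δ 0) + L γ (L δ x))‖ ≤ 11 * r := by
    intro γ δ x
    have h1 := hff γ δ x
    have h2 := hL γ (f δ x)
    have h3 := hL δ x
    have h4 : f (γ * δ) x - (f γ 0 + L γ (f δ 0) + L γ (L δ x)) =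
        (f (γ * δ) x - f γ (f δ x)) + ((f γ (f δ x) - f γ 0 - L γ (f δ x)) +
          L γ (f δ x - f δ 0 - L δ x)) := by
      rw [map_sub, map_sub]
      abel
    rw [h4]
    refine (norm_add_le _ _).trans ((add_le_add h1 (norm_add_le _ _)).trans ?_)
    rw [LinearIsometryEquiv.norm_map]
    linarith
  have hLmul : ∀ γ δ x, L (γ * δ) x = L γ (L δ x) := by
    intro γ δ x
    have hbd : ∀ y, ‖L (γ * δ) y - L γ (L δ y)‖ ≤ 26 * r := by
      intro y
      have h1 := hcomp γ δ y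
      have h2 := hcomp γ δ 0
      have h3 := hL (γ * δ) y
      rw [map_zero, map_zero, add_zero] at h2
      have h4 : L (γ * δ) y - L γ (L δ y) =
          (f (γ * δ) y - (f γ 0 + L γ (f δ 0) + L γ (L δ y))) -
          ((f (γ * δ) y - f (γ * δ) 0 - L (γ * δ) y) +
            (f (γ * δ) 0 - (f γ 0 + L γ (f δ 0)))) := by abel
      rw [h4]
      refine (norm_sub_le _ _).trans ((add_le_add h1 (norm_add_le _ _)).trans ?_)
      linarith
    by_contra hne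
    have hpos : 0 < ‖L (γ * δ) x - L γ (L δ x)‖ := norm_pos_iff.mpr (sub_ne_zero.mpr hne)
    obtain ⟨n, hn⟩ := exists_nat_gt (26 * r / ‖L (γ * δ) x - L γ (L δ x)‖)
    rw [div_lt_iff₀ hpos] at hn
    have h1 := hbd ((n : ℝ) • x)
    rw [map_smul, map_smul, map_smul, ← smul_sub, norm_smul,
      Real.norm_of_nonneg (Nat.cast_nonneg n)] at h1
    linarith
  refine ⟨L, fun γ => f γ 0, 7 * r, hLmul, ?_, ?_, ?_⟩
  · intro γ δ
    have h1 := hff γ δ 0
    have h2 := hL γ (f δ 0)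
    have h4 : f (γ * δ) 0 - (f γ 0 + L γ (f δ 0)) =
        (f (γ * δ) 0 - f γ (f δ 0)) + (f γ (f δ 0) - f γ 0 - L γ (f δ 0)) := by abel
    rw [h4]
    refine (norm_add_le _ _).trans ((add_le_add h1 h2).trans ?_)
    linarith
  · intro R
    refine (hfin (r + R)).subset fun γ hγ => ?_
    have h1 : ‖f γ 0‖ ≤ R := hγ
    have h2 := hf γ 0
    change dist (γ • ψ 0) (ψ 0) ≤ r + R
    have h3 := dist_triangle (γ • ψ 0) (ψ (f γ 0)) (ψ 0)
    rw [hψ.dist_eq (f γ 0) 0, dist_zero_right] at h3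
    linarith
  · obtain ⟨R, hR⟩ := hcob
    refine ⟨R + r, fun z => ?_⟩
    obtain ⟨γ, hγ⟩ := hR z
    refine ⟨γ⁻¹, ?_⟩
    rw [← dist_eq_norm, ← hψ.dist_eq]
    have h1 := hf γ⁻¹ 0
    have h2 : dist (γ⁻¹ • ψ 0) (ψ z) ≤ R := by
      rw [← dist_smul γ, smul_inv_smul, dist_comm]
      exact hγ
    have h3 := dist_triangle (ψ (f γ⁻¹ 0)) (γ⁻¹ • ψ 0) (ψ z)
    rw [dist_comm (ψ (f γ⁻¹ 0)) (γ⁻¹ • ψ 0)] at h3
    linarith

end quasi

section dynamics

variable {E : Type*} [NormedAddCommGroup E]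
variable {G X : Type*} [Group G] [MetricSpace X] [ProperSpace X] [MulAction G X]
  [IsIsometricSMul G X]

/-- The action of `G × E` on maps `E → X`. -/
def act (g : G) (v : E) (φ : E → X) : E → X := fun z => g • φ (z + v)

omit [ProperSpace X] in
theorem continuous_act (g : G) (v : E) : Continuous (act g v : (E → X) → (E → X)) :=
  continuous_pi fun z => (continuous_apply (z + v)).const_smul g

theorem act_act (g g' : G) (v v' : E) (φ : E → X) :
    act g' v' (act g v φ) = act (g' * g) (v' + v) φ := by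
  funext z
  simp only [act, mul_smul, add_assoc]

theorem isCompact_flats (Fl : Set (E → X)) (hcl : IsClosed Fl) (hiso : ∀ φ ∈ Fl, Isometry φ)
    (K : Set X) (hK : IsCompact K) : IsCompact {φ | φ ∈ Fl ∧ φ 0 ∈ K} := by
  rcases K.eq_empty_or_nonempty with rfl | ⟨x₀, hx₀⟩
  · simp
  obtain ⟨R, hR⟩ := hK.isBounded.subset_closedBall x₀
  have hcomp : IsCompact (Set.pi Set.univ fun z : E => Metric.closedBall x₀ (R + ‖z‖)) :=
    isCompact_univ_pi fun z => isCompact_closedBall _ _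
  refine hcomp.of_isClosed_subset
    (hcl.inter (hK.isClosed.preimage (continuous_apply (0 : E)))) ?_
  rintro φ ⟨hφ, hφ0⟩ z _
  rw [Metric.mem_closedBall]
  have h1 := hR hφ0
  rw [Metric.mem_closedBall] at h1
  have h2 := dist_triangle (φ z) (φ 0) x₀
  rw [(hiso φ hφ).dist_eq z 0, dist_zero_right] at h2
  linarith

/-- The main dynamical statement. -/
theorem exists_returning (Fl : Set (E → X)) (hcl : IsClosed Fl) (hiso : ∀ φ ∈ Fl, Isometry φ)
    (hne : Fl.Nonempty) (hinv : ∀ (g : G) (v : E), ∀ φ ∈ Fl, act g v φ ∈ Fl)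
    (hcocompact : ∃ K : Set X, IsCompact K ∧ ∀ x, ∃ g : G, g • x ∈ K)
    {ι : Type*} [Countable ι] (C : ι → Set (E → X)) (hC : ∀ i, IsClosed (C i))
    (hcov : ∀ φ ∈ Fl, ∃ i, φ ∈ C i) :
    ∃ ψ ∈ Fl, ∃ i, ψ ∈ C i ∧ ∃ K' : Set X, IsCompact K' ∧
      ∀ z, ∃ (γ : G) (w : E), γ • ψ z ∈ K' ∧ act γ w ψ ∈ C i := by
  classical
  obtain ⟨K, hK, hKcov⟩ := hcocompact
  let 𝒮 : Set (Set (E → X)) := {M | IsClosed M ∧ M ⊆ Fl ∧ M.Nonempty ∧
    ∀ (g : G) (v : E), ∀ φ ∈ M, act g v φ ∈ M}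
  have hFl : Fl ∈ 𝒮 := ⟨hcl, le_rfl, hne, hinv⟩
  have hzorn : ∀ c ⊆ 𝒮, IsChain (· ⊆ ·) c → ∃ lb ∈ 𝒮, ∀ s ∈ c, lb ⊆ s := by
    intro c hc hchain
    rcases c.eq_empty_or_nonempty with rfl | hcne
    · exact ⟨Fl, hFl, by simp⟩
    refine ⟨⋂₀ c, ⟨isClosed_sInter fun M hM => (hc hM).1, ?_, ?_, ?_⟩,
      fun s hs => Set.sInter_subset_of_mem hs⟩
    · obtain ⟨M, hM⟩ := hcne
      exact (Set.sInter_subset_of_mem hM).trans (hc hM).2.1
    · have hcne' : Nonempty c := hcne.to_subtype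
      have h1 : (⋂ M : c, {φ | φ ∈ M.1 ∧ φ 0 ∈ K}).Nonempty := by
        refine IsCompact.nonempty_iInter_of_directed_nonempty_isCompact_isClosed _ ?_ ?_ ?_ ?_
        · intro M N
          rcases hchain.total M.2 N.2 with h | h
          · exact ⟨M, fun φ hφ => hφ, fun φ hφ => ⟨h hφ.1, hφ.2⟩⟩
          · exact ⟨N, fun φ hφ => ⟨h hφ.1, hφ.2⟩, fun φ hφ => hφ⟩
        · intro M
          obtain ⟨φ, hφ⟩ := (hc M.2).2.2.1
          obtain ⟨g, hg⟩ := hKcov (φ 0)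
          refine ⟨act g 0 φ, (hc M.2).2.2.2 g 0 φ hφ, ?_⟩
          simpa [act] using hg
        · intro M
          exact isCompact_flats M.1 (hc M.2).1 (fun φ hφ => hiso φ ((hc M.2).2.1 hφ)) K hK
        · intro M
          exact (hc M.2).1.inter (hK.isClosed.preimage (continuous_apply (0 : E)))
      obtain ⟨φ, hφ⟩ := h1
      rw [Set.mem_iInter] at hφ
      exact ⟨φ, fun M hM => (hφ ⟨M, hM⟩).1⟩
    · intro g v φ hφ M hM
      exact (hc hM).2.2.2 g v φ (hφ M hM)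
  obtain ⟨M₀, hM₀⟩ := zorn_superset 𝒮 hzorn
  obtain ⟨hM₀cl, hM₀Fl, hM₀ne, hM₀inv⟩ := hM₀.prop
  -- Baire
  have hM₀ne' : Nonempty M₀ := hM₀ne.to_subtype
  have hwlc : WeaklyLocallyCompactSpace M₀ := by
    refine ⟨fun φ => ?_⟩
    refine ⟨Subtype.val ⁻¹' {φ' | φ' ∈ Fl ∧ φ' 0 ∈ Metric.closedBall (φ.1 0) 1}, ?_, ?_⟩
    · exact hM₀cl.isClosedEmbedding_subtypeVal.isCompact_preimage
        (isCompact_flats Fl hcl hiso _ (isCompact_closedBall _ _))
    · have h1 : {φ' : M₀ | φ'.1 0 ∈ Metric.ball (φ.1 0) 1} ∈ 𝓝 φ := by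
        refine IsOpen.mem_nhds ?_ (by simp)
        exact Metric.isOpen_ball.preimage ((continuous_apply (0 : E)).comp continuous_subtype_val)
      refine Filter.mem_of_superset h1 fun φ' hφ' => ⟨hM₀Fl φ'.2, Metric.ball_subset_closedBall hφ'⟩
  have hbaire : BaireSpace M₀ := inferInstance
  obtain ⟨i, hi⟩ := nonempty_interior_of_iUnion_of_closed
    (f := fun i => (Subtype.val ⁻¹' C i : Set M₀))
    (fun i => (hC i).preimage continuous_subtype_val) (by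
      ext φ
      simp only [Set.mem_iUnion, Set.mem_preimage, Set.mem_univ, iff_true]
      exact hcov φ.1 (hM₀Fl φ.2))
  obtain ⟨ψ, hψ⟩ := hi
  obtain ⟨O, hO, hOeq⟩ := isOpen_induced_iff.mp
    (isOpen_interior (s := (Subtype.val ⁻¹' C i : Set M₀)))
  have hψO : ψ.1 ∈ O := by
    rw [← hOeq] at hψ
    exact hψ
  have hOC : ∀ φ ∈ M₀, φ ∈ O → φ ∈ C i := by
    intro φ hφ hφO
    have h1 : (⟨φ, hφ⟩ : M₀) ∈ Subtype.val ⁻¹' O := hφO
    rw [hOeq] at h1
    have h2 := interior_subset (s := (Subtype.val ⁻¹' C i : Set M₀)) h1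
    exact h2
  -- minimality
  have hreturn : ∀ φ ∈ M₀, ∃ (g : G) (v : E), act g v φ ∈ O := by
    intro φ hφ
    by_contra hcon
    push Not at hcon
    let N : Set (E → X) := {φ | φ ∈ M₀ ∧ ∀ (g : G) (v : E), act g v φ ∉ O}
    have hNmem : N ∈ 𝒮 := by
      refine ⟨?_, fun φ hφ => hM₀Fl hφ.1, ⟨φ, hφ, hcon⟩, ?_⟩
      · have hNeq : N = M₀ ∩ ⋂ (g : G), ⋂ (v : E), (act g v : (E → X) → (E → X)) ⁻¹' Oᶜ := by
          ext φ
          simp [N]
        rw [hNeq]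
        refine hM₀cl.inter (isClosed_iInter fun g => isClosed_iInter fun v => ?_)
        exact hO.isClosed_compl.preimage (continuous_act g v)
      · intro g v φ hφ
        refine ⟨hM₀inv g v φ hφ.1, fun g' v' => ?_⟩
        rw [act_act]
        exact hφ.2 _ _
    have h1 : M₀ ⊆ N := hM₀.le_of_le hNmem fun φ hφ => hφ.1
    have h2 := (h1 ψ.2).2 1 0
    apply h2
    have h3 : act (1 : G) (0 : E) ψ.1 = ψ.1 := by
      funext z
      simp [act]
    rw [h3]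
    exact hψO
  have hMK : IsCompact {φ | φ ∈ M₀ ∧ φ 0 ∈ K} :=
    isCompact_flats M₀ hM₀cl (fun φ hφ => hiso φ (hM₀Fl hφ)) K hK
  obtain ⟨t, ht⟩ := hMK.elim_finite_subcover
    (fun p : G × E => (act p.1 p.2 : (E → X) → (E → X)) ⁻¹' O)
    (fun p => hO.preimage (continuous_act p.1 p.2))
    (by
      rintro φ ⟨hφ, _⟩
      obtain ⟨g, v, h⟩ := hreturn φ hφ
      rw [Set.mem_iUnion]
      exact ⟨(g, v), h⟩)
  refine ⟨ψ.1, hM₀Fl ψ.2, i, hOC _ ψ.2 hψO, ⋃ p ∈ t, (fun x => p.1 • x) '' K, ?_, ?_⟩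
  · exact t.isCompact_biUnion fun p _ => hK.image (continuous_const_smul p.1)
  · intro z
    obtain ⟨g, hg⟩ := hKcov (ψ.1 z)
    have h1 : act g z ψ.1 ∈ {φ | φ ∈ M₀ ∧ φ 0 ∈ K} := by
      refine ⟨hM₀inv g z _ ψ.2, ?_⟩
      simpa [act] using hg
    have h2 := ht h1
    rw [Set.mem_iUnion₂] at h2
    obtain ⟨p, hp, hpO⟩ := h2
    refine ⟨p.1 * g, p.2 + z, ?_, ?_⟩
    · rw [Set.mem_iUnion₂]
      exact ⟨p, hp, g • ψ.1 z, hg, by rw [mul_smul]⟩
    · have h3 : act (p.1 * g) (p.2 + z) ψ.1 = act p.1 p.2 (act g z ψ.1) := (act_act _ _ _ _ _).symm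
      rw [h3]
      exact hOC _ (hM₀inv _ _ _ (hM₀inv _ _ _ ψ.2)) hpO

end dynamics

end Pool.Agent.MP140312CF
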