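import Pool.Agent.Lib.MP_140312_al_CountableFlats.Dynamics

/-!
# Countably many (classes of) flats force `ℤ ^ k`
-/

namespace Pool.Agent.MP140312CF

open Filter Topology Metric
open scoped ENNReal NNReal

variable {E : Type*} [NormedAddCommGroup E] [InnerProductSpace ℝ E] [FiniteDimensional ℝ E]
variable {G X : Type*} [Group G] [MetricSpace X] [MulAction G X] [IsIsometricSMul G X]

omit [Group G] [MulAction G X] [IsIsometricSMul G X] in
theorem hausdorff_le_of_near (ψ φ : E → X) (hψ : Isometry ψ) (hφ : Isometry φ) (r : ℝ)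
    (h : ∀ z, ∃ z', dist (ψ z) (φ z') ≤ r) :
    hausdorffEDist (Set.range ψ) (Set.range φ) ≤ ENNReal.ofReal (5 * r) := by
  choose f hf using h
  have hr : 0 ≤ r := le_trans dist_nonneg (hf 0)
  have hquasi : ∀ x y, |dist (f x) (f y) - dist x y| ≤ 2 * r := by
    intro x y
    rw [← hφ.dist_eq (f x) (f y), ← hψ.dist_eq x y, abs_sub_le_iff]
    have h3 := hf x
    have h4 := hf y
    constructor
    · have := dist_triangle4 (φ (f x)) (ψ x) (ψ y) (φ (f y))
      rw [dist_comm (φ (f x)) (ψ x)] at this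
      linarith
    · have := dist_triangle4 (ψ x) (φ (f x)) (φ (f y)) (ψ y)
      rw [dist_comm (φ (f y)) (ψ y)] at this
      linarith
  obtain ⟨L, hL⟩ := near_isometry f (2 * r) hquasi
  refine hausdorffEDist_le_of_mem_edist ?_ ?_
  · rintro _ ⟨z, rfl⟩
    refine ⟨φ (f z), ⟨f z, rfl⟩, ?_⟩
    rw [edist_dist]
    exact ENNReal.ofReal_le_ofReal (by linarith [hf z])
  · rintro _ ⟨y, rfl⟩
    refine ⟨ψ (L.symm (y - f 0)), ⟨_, rfl⟩, ?_⟩
    rw [edist_dist]
    refine ENNReal.ofReal_le_ofReal ?_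
    have h1 := hL (L.symm (y - f 0))
    rw [LinearIsometryEquiv.apply_symm_apply] at h1
    have h2 : f (L.symm (y - f 0)) - f 0 - (y - f 0) = f (L.symm (y - f 0)) - y := by abel
    rw [h2, ← dist_eq_norm, ← hφ.dist_eq] at h1
    have h3 := hf (L.symm (y - f 0))
    have h4 := dist_triangle (φ y) (φ (f (L.symm (y - f 0)))) (ψ (L.symm (y - f 0)))
    rw [dist_comm (φ y) (φ (f (L.symm (y - f 0)))),
      dist_comm (φ (f (L.symm (y - f 0)))) (ψ (L.symm (y - f 0)))] at h4
    linarith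

theorem exists_hom_of_subgroup
    (hproper : ∀ K : Set X, IsCompact K → {g : G | (((fun x => g • x) '' K) ∩ K).Nonempty}.Finite)
    [ProperSpace X] (ψ : E → X) (hψ : Isometry ψ) (S : Subgroup G) (r : ℝ)
    (hnear : ∀ γ ∈ S, ∀ z, ∃ z', dist (γ • ψ z) (ψ z') ≤ r)
    (K' : Set X) (hK' : IsCompact K') (hret : ∀ z, ∃ γ ∈ S, γ • ψ z ∈ K') :
    ∃ φ : Multiplicative (Fin (Module.finrank ℝ E) → ℤ) →* G, Function.Injective φ := by
  have hSiso : IsIsometricSMul S X := ⟨fun γ => isometry_smul X (γ : G)⟩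
  obtain ⟨R, hR⟩ := hK'.isBounded.subset_closedBall (ψ 0)
  obtain ⟨L, b, C, hq⟩ := exists_quasiData (S := S) ψ hψ r
    (fun γ z => hnear γ.1 γ.2 z) (by
      intro R
      have h1 := hproper (closedBall (ψ 0) (max R 0)) (isCompact_closedBall _ _)
      refine Set.Finite.of_finite_image (f := Subtype.val) (h1.subset ?_)
        Subtype.val_injective.injOn
      rintro _ ⟨γ, hγ, rfl⟩
      refine ⟨γ.1 • ψ 0, ⟨ψ 0, ?_, rfl⟩, ?_⟩
      · rw [mem_closedBall, dist_self]
        exact le_max_right _ _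
      · rw [mem_closedBall]
        have h2 : dist (γ • ψ 0) (ψ 0) ≤ R := hγ
        exact h2.trans (le_max_left _ _)) (by
      refine ⟨R, fun z => ?_⟩
      obtain ⟨γ, hγ, hγK⟩ := hret z
      exact ⟨⟨γ, hγ⟩, hR hγK⟩)
  obtain ⟨b', hb'⟩ := hq.exists_crystal
  obtain ⟨φ, hφ⟩ := hb'.exists_free_abelian
  exact ⟨S.subtype.comp φ, S.subtype_injective.comp hφ⟩

omit [MetricSpace X] [IsIsometricSMul G X] in
theorem range_act {E : Type*} [NormedAddCommGroup E] (γ : G) (w : E) (ψ : E → X) :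
    Set.range (act γ w ψ) = (fun x => γ • x) '' Set.range ψ := by
  ext x
  constructor
  · rintro ⟨z, rfl⟩
    exact ⟨ψ (z + w), ⟨z + w, rfl⟩, rfl⟩
  · rintro ⟨_, ⟨z, rfl⟩, rfl⟩
    exact ⟨z - w, by simp [act]⟩

theorem isometry_act {E : Type*} [NormedAddCommGroup E] (γ : G) (w : E) (ψ : E → X)
    (hψ : Isometry ψ) : Isometry (act γ w ψ) := by
  refine Isometry.of_dist_eq fun x y => ?_
  simp only [act]
  rw [dist_smul, hψ.dist_eq]
  simp

theorem main [ProperSpace X]
    (hproper : ∀ K : Set X, IsCompact K → {g : G | (((fun x => g • x) '' K) ∩ K).Nonempty}.Finite)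
    (hcocompact : ∃ K : Set X, IsCompact K ∧ ∀ x, ∃ g : G, g • x ∈ K)
    (𝓕 : Set (Set X)) (hne : 𝓕.Nonempty)
    (hflat : ∀ F ∈ 𝓕, ∃ φ : E → X, Isometry φ ∧ Set.range φ = F)
    (hinv : ∀ g : G, ∀ F ∈ 𝓕, (fun x => g • x) '' F ∈ 𝓕)
    (hclosed : IsClosed {φ : E → X | Isometry φ ∧ Set.range φ ∈ 𝓕})
    (hcount : 𝓕.Countable ∨
      ((∃ 𝓒 ⊆ 𝓕, 𝓒.Countable ∧ ∀ F ∈ 𝓕, ∃ F' ∈ 𝓒, hausdorffEDist F F' ≠ ⊤) ∧
        ∀ F ∈ 𝓕, ∃ r : ℝ≥0, ∀ F' ∈ 𝓕, hausdorffEDist F F' ≠ ⊤ → hausdorffEDist F F' ≤ r)) :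
    ∃ φ : Multiplicative (Fin (Module.finrank ℝ E) → ℤ) →* G, Function.Injective φ := by
  classical
  have hcomplete : CompleteSpace E := FiniteDimensional.complete ℝ E
  have hrange : ∀ φ : E → X, Isometry φ → IsClosed (Set.range φ) := fun φ hφ =>
    hφ.isClosedEmbedding.isClosed_range
  have hFlne : {φ : E → X | Isometry φ ∧ Set.range φ ∈ 𝓕}.Nonempty := by
    obtain ⟨F, hF⟩ := hne
    obtain ⟨φ, hφ, hφF⟩ := hflat F hF
    exact ⟨φ, hφ, by rw [hφF]; exact hF⟩
  have hFlinv : ∀ (g : G) (v : E), ∀ φ ∈ {φ : E → X | Isometry φ ∧ Set.range φ ∈ 𝓕},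
      act g v φ ∈ {φ : E → X | Isometry φ ∧ Set.range φ ∈ 𝓕} := by
    rintro g v φ ⟨hφ, hφF⟩
    refine ⟨isometry_act g v φ hφ, ?_⟩
    rw [range_act]
    exact hinv g _ hφF
  rcases hcount with hcount | ⟨⟨𝓒, h𝓒, h𝓒c, h𝓒F⟩, hbdd⟩
  · have hcount' : Countable 𝓕 := hcount.to_subtype
    obtain ⟨ψ, ⟨hψ, hψF⟩, F, hψC, K', hK', hret⟩ := exists_returning
      {φ : E → X | Isometry φ ∧ Set.range φ ∈ 𝓕} hclosed (fun φ hφ => hφ.1) hFlne hFlinv
      hcocompact (fun F : 𝓕 => {φ : E → X | ∀ z, φ z ∈ F.1})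
      (fun F => by
        obtain ⟨φF, hφF, hφFr⟩ := hflat F.1 F.2
        have h1 : {φ : E → X | ∀ z, φ z ∈ F.1} = ⋂ z : E, (fun φ : E → X => φ z) ⁻¹' F.1 := by
          ext φ
          simp
        rw [h1]
        refine isClosed_iInter fun z => IsClosed.preimage (continuous_apply z) ?_
        rw [← hφFr]
        exact hrange φF hφF)
      (fun φ hφ => ⟨⟨Set.range φ, hφ.2⟩, fun z => ⟨z, rfl⟩⟩)
    obtain ⟨φF, hφF, hφFr⟩ := hflat F.1 F.2
    have heq : ∀ φ : E → X, Isometry φ → (∀ z, φ z ∈ F.1) → Set.range φ = F.1 := by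
      intro φ hφ hφm
      have h1 := hausdorff_le_of_near φ φF hφ hφF 0 (fun z => by
        have := hφm z
        rw [← hφFr] at this
        obtain ⟨z', hz'⟩ := this
        exact ⟨z', by rw [hz', dist_self]⟩)
      rw [mul_zero, ENNReal.ofReal_zero, nonpos_iff_eq_zero,
        (hrange φ hφ).hausdorffEDist_zero_iff (hrange φF hφF), hφFr] at h1
      exact h1
    have hψr : Set.range ψ = F.1 := heq ψ hψ hψC
    let S : Subgroup G :=
      { carrier := {γ | (fun x => γ • x) '' F.1 = F.1}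
        mul_mem' := by
          intro a b ha hb
          have ha' : (fun x => a • x) '' F.1 = F.1 := ha
          have hb' : (fun x => b • x) '' F.1 = F.1 := hb
          change (fun x => (a * b) • x) '' F.1 = F.1
          have h1 : (fun x : X => (a * b) • x) = (fun x => a • x) ∘ (fun x => b • x) := by
            funext x
            simp [mul_smul]
          rw [h1, Set.image_comp, hb', ha']
        one_mem' := by
          change (fun x => (1 : G) • x) '' F.1 = F.1
          simp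
        inv_mem' := by
          intro a ha
          have ha' : (fun x => a • x) '' F.1 = F.1 := ha
          change (fun x => a⁻¹ • x) '' F.1 = F.1
          nth_rewrite 1 [← ha']
          rw [← Set.image_comp]
          have h1 : (fun x : X => a⁻¹ • x) ∘ (fun x => a • x) = id := by
            funext x
            simp
          rw [h1, Set.image_id] }
    refine exists_hom_of_subgroup hproper ψ hψ S 0 ?_ K' hK' ?_
    · intro γ hγ z
      have hγ' : (fun x => γ • x) '' F.1 = F.1 := hγ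
      have h1 : γ • ψ z ∈ F.1 := by
        rw [← hγ']
        exact ⟨ψ z, hψC z, rfl⟩
      rw [← hψr] at h1
      obtain ⟨z', hz'⟩ := h1
      exact ⟨z', by rw [hz', dist_self]⟩
    · intro z
      obtain ⟨γ, w, hγK, hγC⟩ := hret z
      refine ⟨γ, ?_, hγK⟩
      have h1 := heq (act γ w ψ) (isometry_act γ w ψ hψ) hγC
      rw [range_act, hψr] at h1
      exact h1
  · have hcount' : Countable 𝓒 := h𝓒c.to_subtype
    obtain ⟨ψ, ⟨hψ, hψF⟩, ⟨F, n⟩, hψC, K', hK', hret⟩ := exists_returning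
      {φ : E → X | Isometry φ ∧ Set.range φ ∈ 𝓕} hclosed (fun φ hφ => hφ.1) hFlne hFlinv
      hcocompact (fun p : 𝓒 × ℕ => {φ : E → X | ∀ z, infEDist (φ z) p.1.1 ≤ (p.2 : ℝ≥0∞)})
      (fun p => by
        have h1 : {φ : E → X | ∀ z, infEDist (φ z) p.1.1 ≤ (p.2 : ℝ≥0∞)} =
            ⋂ z : E, (fun φ : E → X => infEDist (φ z) p.1.1) ⁻¹' Set.Iic (p.2 : ℝ≥0∞) := by
          ext φ
          simp
        rw [h1]
        exact isClosed_iInter fun z => isClosed_Iic.preimage
          (continuous_infEDist.comp (continuous_apply z)))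
      (fun φ hφ => by
        obtain ⟨F', hF', hfin⟩ := h𝓒F _ hφ.2
        obtain ⟨m, hm⟩ := ENNReal.exists_nat_gt hfin
        exact ⟨⟨⟨F', hF'⟩, m⟩, fun z =>
          (infEDist_le_hausdorffEDist_of_mem (Set.mem_range_self z)).trans hm.le⟩)
    obtain ⟨φF, hφF, hφFr⟩ := hflat F.1 (h𝓒 F.2)
    have hfinite : ∀ φ : E → X, Isometry φ → (∀ z, infEDist (φ z) F.1 ≤ (n : ℝ≥0∞)) →
        hausdorffEDist (Set.range φ) F.1 ≠ ⊤ := by
      intro φ hφ hφm
      have h1 := hausdorff_le_of_near φ φF hφ hφF (n + 1) (fun z => by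
        have h2 : infEDist (φ z) F.1 < (n + 1 : ℝ≥0∞) := lt_of_le_of_lt (hφm z) (by
          exact_mod_cast Nat.lt_succ_self n)
        rw [infEDist_lt_iff, ← hφFr] at h2
        obtain ⟨_, ⟨z', rfl⟩, hz'⟩ := h2
        refine ⟨z', ?_⟩
        rw [edist_dist] at hz'
        have h3 : (n + 1 : ℝ≥0∞) = ENNReal.ofReal (n + 1) := by
          rw [ENNReal.ofReal_add (by positivity) zero_le_one]
          simp
        rw [h3, ENNReal.ofReal_lt_ofReal_iff (by positivity)] at hz'
        exact hz'.le)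
      rw [hφFr] at h1
      exact ne_top_of_le_ne_top ENNReal.ofReal_ne_top h1
    set F₀ := Set.range ψ with hF₀
    have hψfin : hausdorffEDist F₀ F.1 ≠ ⊤ := hfinite ψ hψ hψC
    have himage : ∀ (a : G) (A B : Set X), hausdorffEDist ((fun x => a • x) '' A)
        ((fun x => a • x) '' B) = hausdorffEDist A B := fun a A B =>
      hausdorffEDist_image (isometry_smul X a)
    let S : Subgroup G :=
      { carrier := {γ | hausdorffEDist ((fun x => γ • x) '' F₀) F₀ ≠ ⊤}
        mul_mem' := by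
          intro a b ha hb
          have ha' : hausdorffEDist ((fun x => a • x) '' F₀) F₀ ≠ ⊤ := ha
          have hb' : hausdorffEDist ((fun x => b • x) '' F₀) F₀ ≠ ⊤ := hb
          change hausdorffEDist ((fun x => (a * b) • x) '' F₀) F₀ ≠ ⊤
          have h1 : (fun x : X => (a * b) • x) = (fun x => a • x) ∘ (fun x => b • x) := by
            funext x
            simp [mul_smul]
          rw [h1, Set.image_comp]
          refine ne_top_of_le_ne_top (ENNReal.add_ne_top.mpr ⟨?_, ha'⟩) hausdorffEDist_triangle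
          rw [himage]
          exact hb'
        one_mem' := by
          change hausdorffEDist ((fun x => (1 : G) • x) '' F₀) F₀ ≠ ⊤
          simp
        inv_mem' := by
          intro a ha
          have ha' : hausdorffEDist ((fun x => a • x) '' F₀) F₀ ≠ ⊤ := ha
          change hausdorffEDist ((fun x => a⁻¹ • x) '' F₀) F₀ ≠ ⊤
          rw [← himage a, ← Set.image_comp]
          have h1 : (fun x : X => a • x) ∘ (fun x => a⁻¹ • x) = id := by
            funext x
            simp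
          rw [h1, Set.image_id, hausdorffEDist_comm]
          exact ha' }
    obtain ⟨r, hr⟩ := hbdd F₀ hψF
    refine exists_hom_of_subgroup hproper ψ hψ S (r + 1) ?_ K' hK' ?_
    · intro γ hγ z
      have hγ' : hausdorffEDist ((fun x => γ • x) '' F₀) F₀ ≠ ⊤ := hγ
      have h1 : hausdorffEDist ((fun x => γ • x) '' F₀) F₀ ≤ r := by
        rw [hausdorffEDist_comm] at hγ' ⊢
        exact hr _ (hinv γ _ hψF) hγ'
      have h2 : hausdorffEDist ((fun x => γ • x) '' F₀) F₀ < (r : ℝ≥0∞) + 1 :=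
        lt_of_le_of_lt h1 (ENNReal.lt_add_right ENNReal.coe_ne_top one_ne_zero)
      have hmem : γ • ψ z ∈ (fun x => γ • x) '' F₀ := ⟨ψ z, ⟨z, rfl⟩, rfl⟩
      obtain ⟨_, ⟨z', rfl⟩, hz'⟩ := exists_edist_lt_of_hausdorffEDist_lt hmem h2
      refine ⟨z', ?_⟩
      rw [edist_dist] at hz'
      have h3 : (r : ℝ≥0∞) + 1 = ENNReal.ofReal (r + 1) := by
        rw [ENNReal.ofReal_add (by positivity) zero_le_one]
        simp
      rw [h3, ENNReal.ofReal_lt_ofReal_iff (by positivity)] at hz'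
      exact hz'.le
    · intro z
      obtain ⟨γ, w, hγK, hγC⟩ := hret z
      refine ⟨γ, ?_, hγK⟩
      have h1 := hfinite (act γ w ψ) (isometry_act γ w ψ hψ) hγC
      rw [range_act] at h1
      change hausdorffEDist ((fun x => γ • x) '' F₀) F₀ ≠ ⊤
      refine ne_top_of_le_ne_top (ENNReal.add_ne_top.mpr ⟨h1, ?_⟩) hausdorffEDist_triangle
      rw [hausdorffEDist_comm]
      exact hψfin

end Pool.Agent.MP140312CF
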