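import Pool.Agent.Lib.MP_140312_al_CountableFlats.Main

/-!
# Countably many flats force `ℤ ^ k`

Let `G` act geometrically (by isometries, properly and cocompactly) on a proper metric space `X`,
and let `𝓕` be a nonempty `G`-invariant family of `k`-flats (images of isometric embeddings of
Euclidean `k`-space) which is closed under pointwise limits of parametrisations; for instance all
`k`-flats of `X`.  If `𝓕` is countable, or if its members fall into countably many classes modulo
finite Hausdorff distance and each class is Hausdorff bounded, then `G` contains `ℤ ^ k`; in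
particular it contains `ℤ × ℤ` when `k ≥ 2`.
-/

namespace Pool.Agent.Lib.MP_140312_al_CountableFlats.Result

open Metric
open scoped ENNReal NNReal

theorem countableFlats {G X : Type*} [Group G] [MetricSpace X] [ProperSpace X] [MulAction G X]
    [IsIsometricSMul G X]
    (hproper : ∀ K : Set X, IsCompact K → {g : G | (((fun x => g • x) '' K) ∩ K).Nonempty}.Finite)
    (hcocompact : ∃ K : Set X, IsCompact K ∧ ∀ x, ∃ g : G, g • x ∈ K)
    (k : ℕ) (𝓕 : Set (Set X)) (hne : 𝓕.Nonempty)
    (hflat : ∀ F ∈ 𝓕, ∃ φ : EuclideanSpace ℝ (Fin k) → X, Isometry φ ∧ Set.range φ = F)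
    (hinv : ∀ g : G, ∀ F ∈ 𝓕, (fun x => g • x) '' F ∈ 𝓕)
    (hclosed : IsClosed {φ : EuclideanSpace ℝ (Fin k) → X | Isometry φ ∧ Set.range φ ∈ 𝓕})
    (hcount : 𝓕.Countable ∨
      ((∃ 𝓒 ⊆ 𝓕, 𝓒.Countable ∧ ∀ F ∈ 𝓕, ∃ F' ∈ 𝓒, hausdorffEDist F F' ≠ ⊤) ∧
        ∀ F ∈ 𝓕, ∃ r : ℝ≥0, ∀ F' ∈ 𝓕, hausdorffEDist F F' ≠ ⊤ → hausdorffEDist F F' ≤ r)) :
    (∃ φ : Multiplicative (Fin k → ℤ) →* G, Function.Injective φ) ∧
      (2 ≤ k → ∃ φ : Multiplicative (ℤ × ℤ) →* G, Function.Injective φ) := by
  have hφ := Pool.Agent.MP140312CF.main (E := EuclideanSpace ℝ (Fin k)) hproper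
    hcocompact 𝓕 hne hflat hinv hclosed hcount
  have hk : Module.finrank ℝ (EuclideanSpace ℝ (Fin k)) = k := by simp
  rw [hk] at hφ
  refine ⟨hφ, fun h2 => ?_⟩
  obtain ⟨φ, hφi⟩ := hφ
  let ι : Multiplicative (ℤ × ℤ) →* Multiplicative (Fin k → ℤ) :=
    { toFun := fun m => Multiplicative.ofAdd fun i =>
        if i.1 = 0 then m.toAdd.1 else if i.1 = 1 then m.toAdd.2 else 0
      map_one' := by
        apply Multiplicative.toAdd.injective
        funext i
        simp
      map_mul' := by
        intro m n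
        apply Multiplicative.toAdd.injective
        funext i
        simp only [toAdd_mul, toAdd_ofAdd, Pi.add_apply, Prod.fst_add, Prod.snd_add]
        split_ifs <;> simp }
  refine ⟨φ.comp ι, hφi.comp ?_⟩
  intro m n hmn
  have h0 := congrFun (congrArg Multiplicative.toAdd hmn) ⟨0, by omega⟩
  have h1 := congrFun (congrArg Multiplicative.toAdd hmn) ⟨1, by omega⟩
  apply Multiplicative.toAdd.injective
  refine Prod.ext ?_ ?_
  · simpa [ι] using h0
  · simpa [ι] using h1

end Pool.Agent.Lib.MP_140312_al_CountableFlats.Result
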